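import Pool.Agent.RS5.Chk

/-!
# RS5: blocks given by lists of edges

The vertices of a block are numbers, `0` is the hub. The data of the checks refer to the edges of a list by bit masks; here
they are connected with colourings of the pairs of numbers.
-/

set_option autoImplicit false

namespace Pool.Agent.RS5

/-- a colouring of the pairs of numbers, proper and without rainbow 5-cycles on the graph `A` -/
structure GC (A : ℕ → ℕ → Prop) (g : ℕ → ℕ → ℕ) : Prop where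
  symm : ∀ x y, g x y = g y x
  prop : ∀ x y z, A x y → A x z → y ≠ z → g x y ≠ g x z
  cyc : ∀ a b c d e, A a b → A b c → A c d → A d e → A e a → [a, b, c, d, e].Nodup →
    g a b = g c d ∨ g b c = g d e ∨ g c d = g e a ∨ g d e = g a b ∨ g e a = g b c

/-- the graph of a list of edges -/
def Ad (E : List (ℕ × ℕ)) (x y : ℕ) : Prop := (x, y) ∈ E ∨ (y, x) ∈ E

theorem Ad.symm {E : List (ℕ × ℕ)} {x y : ℕ} (h : Ad E x y) : Ad E y x := Or.symm h

/-- a block: the properties used of the gadgets -/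
structure Blk (s : ℕ) (E : List (ℕ × ℕ)) : Prop where
  bd : ∀ p ∈ E, p.1 < p.2 ∧ p.2 ≤ s
  good : ∃ g, GC (Ad E) g
  ins : ∀ u v, u < v → v ≤ s → ¬ Ad E u v → ∀ g, ¬ GC (Ad (E ++ [(u, v)])) g
  p1 : ∀ g, GC (Ad E) g → ∀ x y, x ≠ 0 → y ≠ 0 → Ad E x y → ∃ t, Ad E 0 t ∧ g x y = g 0 t
  p2 : ∀ g, GC (Ad E) g → ∀ u, u ≠ 0 → u ≤ s → ∃ a b, a ≠ 0 ∧ b ≠ 0 ∧ b ≠ u ∧ Ad E u a ∧
    Ad E a b ∧ Ad E 0 b ∧ g u a ≠ g 0 b
  tt : ∀ u, Ad E 0 u → ∃ a, a ≠ 0 ∧ Ad E u a ∧ Ad E 0 a
  st : ∀ u, u ≠ 0 → u ≤ s → ¬ Ad E 0 u → ∃ a b, a ≠ b ∧ a ≠ 0 ∧ b ≠ 0 ∧ Ad E u a ∧ Ad E u b ∧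
    Ad E 0 a ∧ Ad E 0 b

/-! ## Checking entries -/

/-- the edge `p` is the edge `x y` -/
def mt (p : ℕ × ℕ) (x y : ℕ) : Bool :=
  (Nat.beq p.1 x && Nat.beq p.2 y) || (Nat.beq p.1 y && Nat.beq p.2 x)

/-- the edge `p` has exactly one vertex in common with `x y` (or it is a hub edge, if `ex`) -/
def ad (ex : Bool) (p : ℕ × ℕ) (x y : ℕ) : Bool :=
  (Nat.beq p.1 x && !Nat.beq p.2 y) || ((Nat.beq p.1 y && !Nat.beq p.2 x) ||
  ((Nat.beq p.2 x && !Nat.beq p.1 y) || ((Nat.beq p.2 y && !Nat.beq p.1 x) ||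
  (ex && Nat.beq p.1 0))))

/-- the masks `b`, `a` are correct for the edge `x y` -/
noncomputable def eok (ex : Bool) (x y : ℕ) (E : List (ℕ × ℕ)) : ℕ → ℕ → Bool :=
  List.rec (motive := fun _ => ℕ → ℕ → Bool) (fun b a => Nat.beq b 0 && Nat.beq a 0)
    (fun p _ r b a => (!(Nat.beq (b % 2) 1) || mt p x y) && ((!(Nat.beq (a % 2) 1) || ad ex p x y) &&
      r (b / 2) (a / 2))) E

theorem eok_nil (ex : Bool) (x y b a : ℕ) :
    eok ex x y [] b a = (Nat.beq b 0 && Nat.beq a 0) := rfl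

theorem eok_cons (ex : Bool) (x y : ℕ) (p : ℕ × ℕ) (E : List (ℕ × ℕ)) (b a : ℕ) :
    eok ex x y (p :: E) b a = ((!(Nat.beq (b % 2) 1) || mt p x y) &&
      ((!(Nat.beq (a % 2) 1) || ad ex p x y) && eok ex x y E (b / 2) (a / 2))) := rfl

theorem eok_b {ex : Bool} {x y : ℕ} {E : List (ℕ × ℕ)} : ∀ {b a : ℕ}, eok ex x y E b a = true →
    ∀ e, b.testBit e = true → ∃ p, E[e]? = some p ∧ mt p x y = true := by
  induction E with
  | nil =>
    intro b a h e he
    rw [eok_nil, Bool.and_eq_true, Nat.beq_eq] at h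
    rw [h.1, Nat.zero_testBit] at he
    exact absurd he (by decide)
  | cons p E ih =>
    intro b a h e he
    rw [eok_cons, Bool.and_eq_true, Bool.and_eq_true] at h
    obtain ⟨h1, -, h3⟩ := h
    cases e with
    | zero =>
      rw [Nat.testBit_zero, decide_eq_true_eq] at he
      rw [he] at h1
      exact ⟨p, rfl, by simpa using h1⟩
    | succ e =>
      rw [Nat.testBit_succ] at he
      exact ih h3 e he

theorem eok_a {ex : Bool} {x y : ℕ} {E : List (ℕ × ℕ)} : ∀ {b a : ℕ}, eok ex x y E b a = true →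
    ∀ e, a.testBit e = true → ∃ p, E[e]? = some p ∧ ad ex p x y = true := by
  induction E with
  | nil =>
    intro b a h e he
    rw [eok_nil, Bool.and_eq_true, Nat.beq_eq, Nat.beq_eq] at h
    rw [h.2, Nat.zero_testBit] at he
    exact absurd he (by decide)
  | cons p E ih =>
    intro b a h e he
    rw [eok_cons, Bool.and_eq_true, Bool.and_eq_true] at h
    obtain ⟨-, h2, h3⟩ := h
    cases e with
    | zero =>
      rw [Nat.testBit_zero, decide_eq_true_eq] at he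
      rw [he] at h2
      exact ⟨p, rfl, by simpa using h2⟩
    | succ e =>
      rw [Nat.testBit_succ] at he
      exact ih h3 e he

/-- the colours of the edges of a list -/
def fE (E : List (ℕ × ℕ)) (g : ℕ → ℕ → ℕ) (e : ℕ) : ℕ := g (E.getD e (0, 0)).1 (E.getD e (0, 0)).2

theorem fE_some {E : List (ℕ × ℕ)} {g : ℕ → ℕ → ℕ} {e : ℕ} {p : ℕ × ℕ} (h : E[e]? = some p) :
    fE E g e = g p.1 p.2 := by
  unfold fE
  rw [List.getD_eq_getElem?_getD, h]
  rfl

theorem mt_iff {p : ℕ × ℕ} {x y : ℕ} : mt p x y = true ↔ p = (x, y) ∨ p = (y, x) := by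
  obtain ⟨p1, p2⟩ := p
  unfold mt
  simp only [Bool.or_eq_true, Bool.and_eq_true, Nat.beq_eq, Prod.mk.injEq]

theorem ad_iff {ex : Bool} {p : ℕ × ℕ} {x y : ℕ} (h : ad ex p x y = true) :
    (p.1 = x ∧ p.2 ≠ y) ∨ (p.1 = y ∧ p.2 ≠ x) ∨ (p.2 = x ∧ p.1 ≠ y) ∨ (p.2 = y ∧ p.1 ≠ x) ∨
      (ex = true ∧ p.1 = 0) := by
  have hb : ∀ a b : ℕ, (!Nat.beq a b) = true ↔ a ≠ b := by
    intro a b
    rw [Bool.not_eq_true', ← Bool.not_eq_true, Nat.beq_eq]
  unfold ad at h
  simp only [Bool.or_eq_true, Bool.and_eq_true, Nat.beq_eq, hb] at h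
  exact h

/-- the entries that pass the test are correct -/
theorem eok_ok {ex : Bool} {E F : List (ℕ × ℕ)} {g : ℕ → ℕ → ℕ} (hEF : ∀ p ∈ E, p ∈ F)
    (hg : GC (Ad F) g) {x y : ℕ} (hxy : Ad F x y)
    (hex : ex = true → ∀ t, Ad F 0 t → g x y ≠ g 0 t) {z : Ent}
    (h : eok ex x y E z.1 z.2 = true) : OkC (fE E g) z (g x y) := by
  refine ⟨fun e he => ?_, fun e he => ?_⟩
  · obtain ⟨p, hp, hm⟩ := eok_b h e he
    rw [fE_some hp]
    rcases mt_iff.1 hm with rfl | rfl
    · rfl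
    · exact hg.symm _ _
  · obtain ⟨p, hp, hm⟩ := eok_a h e he
    rw [fE_some hp]
    have hmem : (p.1, p.2) ∈ F := hEF _ (List.mem_of_getElem? hp)
    have hF : Ad F p.1 p.2 := Or.inl hmem
    have hF' : Ad F p.2 p.1 := Or.inr hmem
    rcases ad_iff hm with ⟨h1, h2⟩ | ⟨h1, h2⟩ | ⟨h1, h2⟩ | ⟨h1, h2⟩ | ⟨h1, h2⟩
    · rw [h1] at hF ⊢
      exact hg.prop _ _ _ hF hxy h2
    · rw [h1] at hF ⊢
      rw [hg.symm x y]
      exact hg.prop _ _ _ hF hxy.symm h2
    · rw [h1] at hF' ⊢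
      rw [hg.symm p.1 x]
      exact hg.prop _ _ _ hF' hxy h2
    · rw [h1] at hF' ⊢
      rw [hg.symm p.1 y, hg.symm x y]
      exact hg.prop _ _ _ hF' hxy.symm h2
    · rw [h2] at hF ⊢
      exact (hex h1 _ hF).symm

/-- a number with a bit -/
theorem testBit_of_ne {b : ℕ} (h : b ≠ 0) : ∃ e, b.testBit e = true := by
  by_contra hc
  push Not at hc
  apply h
  apply Nat.eq_of_testBit_eq
  intro i
  rw [Nat.zero_testBit]
  simpa using hc i

theorem eok_adj {ex : Bool} {x y : ℕ} {E : List (ℕ × ℕ)} {b a : ℕ} (h : eok ex x y E b a = true)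
    (hb : b ≠ 0) : Ad E x y := by
  obtain ⟨e, he⟩ := testBit_of_ne hb
  obtain ⟨p, hp, hm⟩ := eok_b h e he
  have hmem := List.mem_of_getElem? hp
  rcases mt_iff.1 hm with rfl | rfl
  · exact Or.inl hmem
  · exact Or.inr hmem

/-- the test of an entry -/
noncomputable def eokE (ex : Bool) (E : List (ℕ × ℕ)) (x y : ℕ) (z : Ent) : Bool :=
  !(Nat.beq z.1 0) && eok ex x y E z.1 z.2

theorem eokE_iff {ex : Bool} {E : List (ℕ × ℕ)} {x y : ℕ} {z : Ent} :
    eokE ex E x y z = true ↔ z.1 ≠ 0 ∧ eok ex x y E z.1 z.2 = true := by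
  unfold eokE
  rw [Bool.and_eq_true, Bool.not_eq_true', ← Bool.not_eq_true, Nat.beq_eq]

/-- five vertices -/
abbrev V5 : Type := ℕ × ℕ × ℕ × ℕ × ℕ

/-- five different vertices -/
def dst (v : V5) : Bool :=
  decide ([v.1, v.2.1, v.2.2.1, v.2.2.2.1, v.2.2.2.2].Nodup)

/-- the test of a cycle -/
noncomputable def cok (E : List (ℕ × ℕ)) (v : V5) (c : Cy) : Bool :=
  dst v && (eokE false E v.1 v.2.1 c.a && (eokE false E v.2.1 v.2.2.1 c.b &&
    (eokE false E v.2.2.1 v.2.2.2.1 c.c && (eokE false E v.2.2.2.1 v.2.2.2.2 c.d &&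
    eokE false E v.2.2.2.2 v.1 c.e))))

/-- the test of a list of cycles -/
noncomputable def coks (E : List (ℕ × ℕ)) : List V5 → List Cy → Bool
  | _, [] => true
  | [], _ :: _ => false
  | v :: vs, c :: cs => cok E v c && coks E vs cs

theorem cok_ok {E F : List (ℕ × ℕ)} {g : ℕ → ℕ → ℕ} (hEF : ∀ p ∈ E, p ∈ F)
    (hg : GC (Ad F) g) {v : V5} {c : Cy} (h : cok E v c = true) : OkY (fE E g) c := by
  obtain ⟨v1, v2, v3, v4, v5⟩ := v
  unfold cok at h
  simp only [Bool.and_eq_true, eokE_iff] at h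
  obtain ⟨h0, ⟨b1, h1⟩, ⟨b2, h2⟩, ⟨b3, h3⟩, ⟨b4, h4⟩, ⟨b5, h5⟩⟩ := h
  have hn : [v1, v2, v3, v4, v5].Nodup := of_decide_eq_true h0
  have hm : ∀ {x y : ℕ}, Ad E x y → Ad F x y := fun h => h.imp (hEF _) (hEF _)
  have a1 := hm (eok_adj h1 b1)
  have a2 := hm (eok_adj h2 b2)
  have a3 := hm (eok_adj h3 b3)
  have a4 := hm (eok_adj h4 b4)
  have a5 := hm (eok_adj h5 b5)
  have hf : ∀ {x y : ℕ}, false = true → ∀ t, Ad F 0 t → g x y ≠ g 0 t :=
    fun h => absurd h (by decide)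
  exact ⟨g v1 v2, g v2 v3, g v3 v4, g v4 v5, g v5 v1, eok_ok hEF hg a1 hf h1,
    eok_ok hEF hg a2 hf h2, eok_ok hEF hg a3 hf h3, eok_ok hEF hg a4 hf h4,
    eok_ok hEF hg a5 hf h5, by
      rcases hg.cyc v1 v2 v3 v4 v5 a1 a2 a3 a4 a5 hn with h | h | h | h | h
      · exact Or.inl h
      · exact Or.inr (Or.inl h)
      · exact Or.inr (Or.inr (Or.inl h))
      · exact Or.inr (Or.inr (Or.inr (Or.inl h)))
      · exact Or.inr (Or.inr (Or.inr (Or.inr h)))⟩

theorem coks_ok {E F : List (ℕ × ℕ)} {g : ℕ → ℕ → ℕ} (hEF : ∀ p ∈ E, p ∈ F)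
    (hg : GC (Ad F) g) {vs : List V5} {cs : List Cy} (h : coks E vs cs = true) :
    ∀ c ∈ cs, OkY (fE E g) c := by
  induction vs generalizing cs with
  | nil =>
    cases cs with
    | nil => intro c hc; exact absurd hc (by simp)
    | cons c cs => exact absurd h (by simp [coks])
  | cons v vs ih =>
    cases cs with
    | nil => intro c hc; exact absurd hc (by simp)
    | cons c cs =>
      rw [coks, Bool.and_eq_true] at h
      intro c' hc'
      rcases List.mem_cons.1 hc' with rfl | hc'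
      · exact cok_ok hEF hg h.1
      · exact ih h.2 c' hc'

/-- longer lists of edges -/
theorem eok_append {ex : Bool} {x y : ℕ} {E F : List (ℕ × ℕ)} : ∀ {b a : ℕ},
    eok ex x y E b a = true → eok ex x y (E ++ F) b a = true := by
  have h0 : ∀ F : List (ℕ × ℕ), eok ex x y F 0 0 = true := by
    intro F
    induction F with
    | nil => rfl
    | cons p F ih =>
      rw [eok_cons]
      exact ih
  induction E with
  | nil =>
    intro b a h
    rw [eok_nil, Bool.and_eq_true, Nat.beq_eq, Nat.beq_eq] at h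
    rw [h.1, h.2]
    exact h0 F
  | cons p E ih =>
    intro b a h
    rw [eok_cons, Bool.and_eq_true, Bool.and_eq_true] at h
    rw [List.cons_append, eok_cons, Bool.and_eq_true, Bool.and_eq_true]
    exact ⟨h.1, h.2.1, ih h.2.2⟩

theorem eokE_append {ex : Bool} {x y : ℕ} {E F : List (ℕ × ℕ)} {z : Ent}
    (h : eokE ex E x y z = true) : eokE ex (E ++ F) x y z = true := by
  rw [eokE_iff] at h ⊢
  exact ⟨h.1, eok_append h.2⟩

theorem coks_append {E F : List (ℕ × ℕ)} {vs : List V5} {cs : List Cy} (h : coks E vs cs = true) :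
    coks (E ++ F) vs cs = true := by
  induction vs generalizing cs with
  | nil =>
    cases cs with
    | nil => rfl
    | cons c cs => exact absurd h (by simp [coks])
  | cons v vs ih =>
    cases cs with
    | nil => rfl
    | cons c cs =>
      rw [coks, Bool.and_eq_true] at h ⊢
      refine ⟨?_, ih h.2⟩
      have h1 := h.1
      unfold cok at h1 ⊢
      simp only [Bool.and_eq_true] at h1 ⊢
      exact ⟨h1.1, eokE_append h1.2.1, eokE_append h1.2.2.1, eokE_append h1.2.2.2.1,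
        eokE_append h1.2.2.2.2.1, eokE_append h1.2.2.2.2.2⟩

theorem coks_cons {E : List (ℕ × ℕ)} {vs vs' : List V5} {cs cs' : List Cy} :
    vs.length = cs.length → coks E vs cs = true → coks E vs' cs' = true →
    coks E (vs ++ vs') (cs ++ cs') = true := by
  induction vs generalizing cs with
  | nil =>
    intro hl h h'
    cases cs with
    | nil => exact h'
    | cons c cs => exact absurd hl (by simp)
  | cons v vs ih =>
    intro hl h h'
    cases cs with
    | nil => exact absurd hl (by simp)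
    | cons c cs =>
      rw [coks, Bool.and_eq_true] at h
      rw [List.cons_append, List.cons_append, coks, Bool.and_eq_true]
      exact ⟨h.1, ih (by simpa using hl) h.2 h'⟩

end Pool.Agent.RS5
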