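import Mathlib

/-!
# RS5: a kernel-checked refutation procedure for proper colourings without a rainbow 5-cycle

A state is a list of classes `(m, c)`: all edges of the mask `m` have one colour, no edge of the mask `c` has it.
A 5-cycle that is not rainbow has two non-adjacent edges of the same colour; the procedure branches over the five pairs.
The order of the cycles is read from a number (base 128).
-/

set_option autoImplicit false

namespace Pool.Agent.RS5

/-- a class of edges: mask, mask of edges of other colours -/
abbrev Ent : Type := ℕ × ℕ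

/-- a 5-cycle, given by its edges -/
structure Cy where
  a : Ent
  b : Ent
  c : Ent
  d : Ent
  e : Ent

section

variable {α : Type}

/-- evaluate the number first -/
noncomputable def frc (n : ℕ) (k : ℕ → α) : α :=
  Nat.rec (motive := fun _ => α) (k 0) (fun m _ => k (Nat.succ m)) n

theorem frc_eq (n : ℕ) (k : ℕ → α) : frc n k = k n := by
  cases n <;> rfl

/-- evaluate the pair first -/
noncomputable def pr (x : Ent) (k : Ent → α) : α :=
  Prod.rec (motive := fun _ => α) (fun m c => k (m, c)) x

theorem pr_eq (x : Ent) (k : Ent → α) : pr x k = k x := rfl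

end

/-- the class of an edge -/
noncomputable def look (x : Ent) (st : List Ent) : Ent :=
  List.rec (motive := fun _ => Ent) x
    (fun p _ r => Bool.rec (motive := fun _ => Ent) p r (Nat.beq (Nat.land p.1 x.1) 0)) st

/-- may the two classes be merged? -/
noncomputable def fe (x y : Ent) : Bool :=
  Nat.beq (Nat.lor (Nat.land x.1 y.2) (Nat.land y.1 x.2)) 0

/-- sequencing -/
noncomputable def obind (o : Option ℕ) (k : ℕ → Option ℕ) : Option ℕ :=
  Option.rec (motive := fun _ => Option ℕ) none k o

/-- the branch where two classes are merged -/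
noncomputable def brn (x y : Ent) (st : List Ent) (rec : List Ent → ℕ → Option ℕ) (s : ℕ) :
    Option ℕ :=
  Bool.rec (motive := fun _ => Option ℕ) (some s)
    (frc (Nat.lor x.1 y.1) fun m => frc (Nat.lor x.2 y.2) fun c => rec ((m, c) :: st) s) (fe x y)

/-- a node -/
noncomputable def node (c : Cy) (st : List Ent) (rec : List Ent → ℕ → Option ℕ) (s : ℕ) :
    Option ℕ :=
  pr (look c.a st) fun a => pr (look c.b st) fun b => pr (look c.c st) fun c' =>
  pr (look c.d st) fun d => pr (look c.e st) fun e =>
    obind (brn a c' st rec s) fun s => obind (brn b d st rec s) fun s =>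
    obind (brn c' e st rec s) fun s => obind (brn d a st rec s) fun s => brn e b st rec s

/-- the cycle of a given number -/
noncomputable def getc (cy : List Cy) (k : Cy → Option ℕ) (i : ℕ) : Option ℕ :=
  List.rec (motive := fun _ => ℕ → Option ℕ) (fun _ => none)
    (fun c _ r i => Nat.rec (motive := fun _ => Option ℕ) (k c) (fun j _ => r j) i) cy i

/-- the cycle of a given number in two lists -/
noncomputable def getc2 (cs cy : List Cy) (k : Cy → Option ℕ) (i : ℕ) : Option ℕ :=
  List.rec (motive := fun _ => ℕ → Option ℕ) (fun i => getc cy k i)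
    (fun c _ r i => Nat.rec (motive := fun _ => Option ℕ) (k c) (fun j _ => r j) i) cs i

/-- the procedure -/
noncomputable def run (cs cy : List Cy) (fuel : ℕ) : List Ent → ℕ → Option ℕ :=
  Nat.rec (motive := fun _ => List Ent → ℕ → Option ℕ) (fun _ _ => none)
    (fun _ rec st s => getc2 cs cy (fun c => frc (Nat.div s 128) fun s' => node c st rec s')
      (Nat.mod s 128)) fuel

/-- forced merges first -/
noncomputable def mrg (l : List (Ent × Ent)) (k : List Ent → Option ℕ) (st : List Ent) :
    Option ℕ :=
  List.rec (motive := fun _ => List Ent → Option ℕ) (fun st => k st)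
    (fun p _ r st => pr (look p.1 st) fun x => pr (look p.2 st) fun y =>
      Bool.rec (motive := fun _ => Option ℕ) (some 0)
        (frc (Nat.lor x.1 y.1) fun m => frc (Nat.lor x.2 y.2) fun c => r ((m, c) :: st))
        (fe x y)) l st

/-- the check -/
noncomputable def chk (cs cy : List Cy) (l : List (Ent × Ent)) (st : List Ent) (s : ℕ) : Bool :=
  Option.rec (motive := fun _ => Bool) false (fun _ => true)
    (mrg l (fun st => run cs cy 50 st s) st)

/-! ## Soundness -/

variable {f : ℕ → ℕ}

/-- the colour of a class -/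
def OkC (f : ℕ → ℕ) (x : Ent) (k : ℕ) : Prop :=
  (∀ e, x.1.testBit e = true → f e = k) ∧ ∀ e, x.2.testBit e = true → f e ≠ k

/-- every class of the state has a colour -/
def OkS (f : ℕ → ℕ) (st : List Ent) : Prop := ∀ p ∈ st, ∃ k, OkC f p k

/-- a cycle which is not rainbow -/
def OkY (f : ℕ → ℕ) (c : Cy) : Prop :=
  ∃ k0 k1 k2 k3 k4, OkC f c.a k0 ∧ OkC f c.b k1 ∧ OkC f c.c k2 ∧ OkC f c.d k3 ∧ OkC f c.e k4 ∧
    (k0 = k2 ∨ k1 = k3 ∨ k2 = k4 ∨ k3 = k0 ∨ k4 = k1)

theorem land_ne {a b : ℕ} (h : Nat.land a b ≠ 0) : ∃ e, a.testBit e = true ∧ b.testBit e = true := by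
  by_contra hc
  push Not at hc
  apply h
  apply Nat.eq_of_testBit_eq
  intro i
  have h1 : Nat.land a b = a &&& b := rfl
  rw [h1, Nat.testBit_land, Nat.zero_testBit]
  cases ha : a.testBit i
  · rfl
  · have := hc i ha
    simpa using this

theorem look_cons (x p : Ent) (st : List Ent) : look x (p :: st) =
    Bool.rec (motive := fun _ => Ent) p (look x st) (Nat.beq (Nat.land p.1 x.1) 0) := rfl

theorem look_ok {x : Ent} {k : ℕ} (hx : OkC f x k) : ∀ {st : List Ent}, OkS f st →
    OkC f (look x st) k := by
  intro st
  induction st with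
  | nil => intro _; exact hx
  | cons p st ih =>
    intro hst
    rw [look_cons]
    cases hb : Nat.beq (Nat.land p.1 x.1) 0 with
    | false =>
      have hne : Nat.land p.1 x.1 ≠ 0 := by
        intro h
        rw [h] at hb
        exact absurd hb (by decide)
      obtain ⟨e, h1, h2⟩ := land_ne hne
      obtain ⟨k', hk'⟩ := hst p List.mem_cons_self
      have h3 : k' = k := by rw [← hk'.1 e h1, hx.1 e h2]
      rw [h3] at hk'
      exact hk'
    | true => exact ih (fun q hq => hst q (List.mem_cons_of_mem _ hq))

theorem land_zero {x y : Ent} {k : ℕ} (hx : OkC f x k) (hy : OkC f y k) :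
    Nat.land x.1 y.2 = 0 := by
  by_contra h
  obtain ⟨e, h1, h2⟩ := land_ne h
  exact hy.2 e h2 (hx.1 e h1)

theorem fe_ok {x y : Ent} {k : ℕ} (hx : OkC f x k) (hy : OkC f y k) : fe x y = true := by
  unfold fe
  rw [land_zero hx hy, land_zero hy hx]
  rfl

theorem mg_ok {x y : Ent} {k : ℕ} (hx : OkC f x k) (hy : OkC f y k) :
    OkC f (Nat.lor x.1 y.1, Nat.lor x.2 y.2) k := by
  have h1 : ∀ a b : ℕ, Nat.lor a b = a ||| b := fun _ _ => rfl
  refine ⟨fun e he => ?_, fun e he => ?_⟩
  · replace he : (Nat.lor x.1 y.1).testBit e = true := he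
    rw [h1, Nat.testBit_lor, Bool.or_eq_true] at he
    rcases he with he | he
    · exact hx.1 e he
    · exact hy.1 e he
  · replace he : (Nat.lor x.2 y.2).testBit e = true := he
    rw [h1, Nat.testBit_lor, Bool.or_eq_true] at he
    rcases he with he | he
    · exact hx.2 e he
    · exact hy.2 e he

theorem brn_none {x y : Ent} {k : ℕ} (hx : OkC f x k) (hy : OkC f y k) {st : List Ent}
    (hst : OkS f st) {rec : List Ent → ℕ → Option ℕ}
    (hrec : ∀ st' s', OkS f st' → rec st' s' = none) (s : ℕ) : brn x y st rec s = none := by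
  unfold brn
  rw [fe_ok hx hy]
  show frc (Nat.lor x.1 y.1) _ = none
  rw [frc_eq, frc_eq]
  apply hrec
  intro p hp
  rcases List.mem_cons.1 hp with rfl | hp
  · exact ⟨k, mg_ok hx hy⟩
  · exact hst p hp

theorem obind_left (k : ℕ → Option ℕ) : obind none k = none := rfl

theorem obind_right {o : Option ℕ} {k : ℕ → Option ℕ} (h : ∀ s, k s = none) : obind o k = none := by
  cases o with
  | none => rfl
  | some s => exact h s

theorem node_none {c : Cy} (hc : OkY f c) {st : List Ent} (hst : OkS f st)
    {rec : List Ent → ℕ → Option ℕ} (hrec : ∀ st' s', OkS f st' → rec st' s' = none) (s : ℕ) :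
    node c st rec s = none := by
  obtain ⟨k0, k1, k2, k3, k4, h0, h1, h2, h3, h4, h⟩ := hc
  have g0 := look_ok h0 hst
  have g1 := look_ok h1 hst
  have g2 := look_ok h2 hst
  have g3 := look_ok h3 hst
  have g4 := look_ok h4 hst
  unfold node
  simp only [pr_eq]
  rcases h with rfl | rfl | rfl | rfl | rfl
  · rw [brn_none g0 g2 hst hrec]
    rfl
  · refine obind_right (fun s => ?_)
    rw [brn_none g1 g3 hst hrec]
    rfl
  · refine obind_right (fun s => obind_right (fun s => ?_))
    rw [brn_none g2 g4 hst hrec]
    rfl
  · refine obind_right (fun s => obind_right (fun s => obind_right (fun s => ?_)))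
    rw [brn_none g3 g0 hst hrec]
    rfl
  · refine obind_right (fun s => obind_right (fun s => obind_right (fun s =>
      obind_right (fun s => ?_))))
    exact brn_none g4 g1 hst hrec s

theorem getc_none {cy : List Cy} {k : Cy → Option ℕ} (h : ∀ c ∈ cy, k c = none) (i : ℕ) :
    getc cy k i = none := by
  induction cy generalizing i with
  | nil => rfl
  | cons c cy ih =>
    cases i with
    | zero => exact h c List.mem_cons_self
    | succ i => exact ih (fun c' hc' => h c' (List.mem_cons_of_mem _ hc')) i

theorem getc2_none {cs cy : List Cy} {k : Cy → Option ℕ} (h : ∀ c ∈ cy, k c = none)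
    (h' : ∀ c ∈ cs, k c = none) (i : ℕ) : getc2 cs cy k i = none := by
  induction cs generalizing i with
  | nil => exact getc_none h i
  | cons c cs ih =>
    cases i with
    | zero => exact h' c List.mem_cons_self
    | succ i => exact ih (fun c' hc' => h' c' (List.mem_cons_of_mem _ hc')) i

theorem run_none {cs cy : List Cy} (hcs : ∀ c ∈ cs, OkY f c) (hcy : ∀ c ∈ cy, OkY f c)
    (fuel : ℕ) : ∀ st s, OkS f st → run cs cy fuel st s = none := by
  induction fuel with
  | zero => intro st s _; rfl
  | succ n ih =>
    intro st s hst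
    show getc2 cs cy (fun c => frc (Nat.div s 128) fun s' => node c st (run cs cy n) s')
      (Nat.mod s 128) = none
    apply getc2_none
    · intro c hc
      rw [frc_eq]
      exact node_none (hcy c hc) hst ih _
    · intro c hc
      rw [frc_eq]
      exact node_none (hcs c hc) hst ih _

theorem mrg_none {l : List (Ent × Ent)} (hl : ∀ p ∈ l, ∃ k, OkC f p.1 k ∧ OkC f p.2 k)
    {k : List Ent → Option ℕ} (hk : ∀ st, OkS f st → k st = none) :
    ∀ st, OkS f st → mrg l k st = none := by
  induction l with
  | nil => intro st hst; exact hk st hst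
  | cons p l ih =>
    intro st hst
    obtain ⟨c, h1, h2⟩ := hl p List.mem_cons_self
    have g1 := look_ok h1 hst
    have g2 := look_ok h2 hst
    show Bool.rec (motive := fun _ => Option ℕ) (some 0)
        (frc (Nat.lor (look p.1 st).1 (look p.2 st).1) fun m =>
          frc (Nat.lor (look p.1 st).2 (look p.2 st).2) fun c => mrg l k ((m, c) :: st))
        (fe (look p.1 st) (look p.2 st)) = none
    rw [fe_ok g1 g2]
    show frc (Nat.lor (look p.1 st).1 (look p.2 st).1) _ = none
    rw [frc_eq, frc_eq]
    apply ih (fun q hq => hl q (List.mem_cons_of_mem _ hq))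
    intro q hq
    rcases List.mem_cons.1 hq with rfl | hq
    · exact ⟨c, mg_ok g1 g2⟩
    · exact hst q hq

/-- **Soundness of the check.** -/
theorem chk_sound {cs cy : List Cy} {l : List (Ent × Ent)} {st : List Ent} {s : ℕ}
    (h : chk cs cy l st s = true) (hcs : ∀ c ∈ cs, OkY f c) (hcy : ∀ c ∈ cy, OkY f c)
    (hl : ∀ p ∈ l, ∃ k, OkC f p.1 k ∧ OkC f p.2 k) (hst : OkS f st) : False := by
  unfold chk at h
  rw [mrg_none hl (fun st hst => run_none hcs hcy 50 st s hst) st hst] at h
  exact absurd h (by decide)

end Pool.Agent.RS5
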