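import Pool.Agent.RS5.Blk

/-!
# RS5: the data of a block and the tests
-/

set_option autoImplicit false

namespace Pool.Agent.RS5

/-- test of adjacency -/
def adb (E : List (ℕ × ℕ)) (x y : ℕ) : Bool := E.any (fun p => mt p x y)

theorem adb_iff {E : List (ℕ × ℕ)} {x y : ℕ} : adb E x y = true ↔ Ad E x y := by
  unfold adb Ad
  rw [List.any_eq_true]
  constructor
  · rintro ⟨p, hp, hm⟩
    rcases mt_iff.1 hm with rfl | rfl
    · exact Or.inl hp
    · exact Or.inr hp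
  · rintro (h | h)
    · exact ⟨_, h, mt_iff.2 (Or.inl rfl)⟩
    · exact ⟨_, h, mt_iff.2 (Or.inr rfl)⟩

theorem not_beq {a b : ℕ} : (!Nat.beq a b) = true ↔ a ≠ b := by
  rw [Bool.not_eq_true', ← Bool.not_eq_true, Nat.beq_eq]

/-! ## inner edges -/

/-- data for an inner edge -/
structure D1 where
  x : ℕ
  y : ℕ
  z : Ent
  s : ℕ

/-- the test for an inner edge: its colour is the colour of a hub edge -/
noncomputable def d1ok (E : List (ℕ × ℕ)) (cy : List Cy) (d : D1) : Bool :=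
  eokE true E d.x d.y d.z && chk [] cy [] [d.z] d.s

theorem d1ok_ok {E : List (ℕ × ℕ)} {vs : List V5} {cy : List Cy} (hc : coks E vs cy = true)
    {d : D1} (hd : d1ok E cy d = true) {g : ℕ → ℕ → ℕ} (hg : GC (Ad E) g) :
    ∃ t, Ad E 0 t ∧ g d.x d.y = g 0 t := by
  by_contra hcon
  push Not at hcon
  unfold d1ok at hd
  rw [Bool.and_eq_true, eokE_iff] at hd
  refine chk_sound (f := fE E g) hd.2 (by simp) (coks_ok (fun p hp => hp) hg hc) (by simp) ?_
  intro p hp
  rw [List.mem_singleton] at hp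
  rw [hp]
  exact ⟨_, eok_ok (fun p hp => hp) hg (eok_adj hd.1.2 hd.1.1) (fun _ => hcon) hd.1.2⟩

/-- all inner edges -/
noncomputable def d1all (E : List (ℕ × ℕ)) (L : List D1) : Bool :=
  E.all (fun p => Nat.beq p.1 0 || L.any (fun d => mt p d.x d.y))

theorem d1all_ok {E : List (ℕ × ℕ)} {vs : List V5} {cy : List Cy} (hc : coks E vs cy = true)
    {L : List D1} (hL : L.all (d1ok E cy) = true) (hA : d1all E L = true) {g : ℕ → ℕ → ℕ}
    (hg : GC (Ad E) g) : ∀ x y, x ≠ 0 → y ≠ 0 → Ad E x y → ∃ t, Ad E 0 t ∧ g x y = g 0 t := by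
  have key : ∀ p ∈ E, p.1 ≠ 0 → ∃ t, Ad E 0 t ∧ g p.1 p.2 = g 0 t := by
    intro p hp h1
    unfold d1all at hA
    have h2 := List.all_eq_true.1 hA p hp
    rw [Bool.or_eq_true, Nat.beq_eq, List.any_eq_true] at h2
    rcases h2 with h2 | ⟨d, hd, hm⟩
    · exact absurd h2 h1
    · have h3 := d1ok_ok hc (List.all_eq_true.1 hL d hd) hg
      rcases mt_iff.1 hm with rfl | rfl
      · exact h3
      · obtain ⟨t, h4, h5⟩ := h3
        exact ⟨t, h4, (hg.symm _ _).trans h5⟩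
  intro x y hx hy hxy
  rcases hxy with h | h
  · exact key _ h hx
  · obtain ⟨t, h4, h5⟩ := key _ h hy
    exact ⟨t, h4, (hg.symm _ _).trans h5⟩

/-! ## routes -/

/-- data for a vertex: the routes -/
structure D2 where
  u : ℕ
  l : List (ℕ × ℕ × Ent × Ent)
  s : ℕ

/-- the test of a route -/
noncomputable def rok (E : List (ℕ × ℕ)) (u : ℕ) (r : ℕ × ℕ × Ent × Ent) : Bool :=
  !Nat.beq r.1 0 && (!Nat.beq r.2.1 0 && (!Nat.beq r.2.1 u && (eokE false E u r.1 r.2.2.1 &&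
    (adb E r.1 r.2.1 && eokE false E 0 r.2.1 r.2.2.2))))

/-- the test for a vertex: there is a rainbow route to the hub -/
noncomputable def d2ok (E : List (ℕ × ℕ)) (cy : List Cy) (d : D2) : Bool :=
  d.l.all (rok E d.u) && chk [] cy (d.l.map fun r => r.2.2) [] d.s

theorem d2ok_ok {E : List (ℕ × ℕ)} {vs : List V5} {cy : List Cy} (hc : coks E vs cy = true)
    {d : D2} (hd : d2ok E cy d = true) {g : ℕ → ℕ → ℕ} (hg : GC (Ad E) g) :
    ∃ a b, a ≠ 0 ∧ b ≠ 0 ∧ b ≠ d.u ∧ Ad E d.u a ∧ Ad E a b ∧ Ad E 0 b ∧ g d.u a ≠ g 0 b := by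
  by_contra hcon
  push Not at hcon
  unfold d2ok at hd
  rw [Bool.and_eq_true] at hd
  refine chk_sound (f := fE E g) hd.2 (by simp) (coks_ok (fun p hp => hp) hg hc) ?_
    (fun p hp => absurd hp (by simp))
  intro p hp
  obtain ⟨r, hr, rfl⟩ := List.mem_map.1 hp
  have h1 := List.all_eq_true.1 hd.1 r hr
  unfold rok at h1
  simp only [Bool.and_eq_true, not_beq, eokE_iff, adb_iff] at h1
  obtain ⟨h1, h2, h3, ⟨h4, h5⟩, h6, h7, h8⟩ := h1
  have hf : ∀ {x y : ℕ}, false = true → ∀ t, Ad E 0 t → g x y ≠ g 0 t :=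
    fun h => absurd h (by decide)
  have a1 := eok_adj h5 h4
  have a2 := eok_adj h8 h7
  have h9 := hcon r.1 r.2.1 h1 h2 h3 a1 h6 a2
  refine ⟨g d.u r.1, eok_ok (fun p hp => hp) hg a1 hf h5, ?_⟩
  rw [h9]
  exact eok_ok (fun p hp => hp) hg a2 hf h8

/-- all vertices -/
def d2all (s : ℕ) (L : List D2) : Bool :=
  (List.range s).all (fun i => L.any (fun d => Nat.beq d.u (i + 1)))

theorem d2all_ok {s : ℕ} {E : List (ℕ × ℕ)} {vs : List V5} {cy : List Cy}
    (hc : coks E vs cy = true) {L : List D2} (hL : L.all (d2ok E cy) = true)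
    (hA : d2all s L = true) {g : ℕ → ℕ → ℕ} (hg : GC (Ad E) g) :
    ∀ u, u ≠ 0 → u ≤ s → ∃ a b, a ≠ 0 ∧ b ≠ 0 ∧ b ≠ u ∧ Ad E u a ∧
    Ad E a b ∧ Ad E 0 b ∧ g u a ≠ g 0 b := by
  intro u hu hs
  unfold d2all at hA
  have h2 := List.all_eq_true.1 hA (u - 1) (List.mem_range.2 (by omega))
  rw [List.any_eq_true] at h2
  obtain ⟨d, hd, hm⟩ := h2
  rw [Nat.beq_eq] at hm
  have h3 := d2ok_ok hc (List.all_eq_true.1 hL d hd) hg
  have h4 : d.u = u := by omega
  rw [h4] at h3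
  exact h3

/-! ## pairs -/

/-- data for a non-adjacent pair -/
structure D3 where
  u : ℕ
  v : ℕ
  vs : List V5
  cs : List Cy
  s : ℕ

/-- the test for a pair: no good colouring with the additional edge -/
noncomputable def d3ok (E : List (ℕ × ℕ)) (cy : List Cy) (d : D3) : Bool :=
  coks (E ++ [(d.u, d.v)]) d.vs d.cs && chk d.cs cy [] [] d.s

theorem d3ok_ok {E : List (ℕ × ℕ)} {vs : List V5} {cy : List Cy} (hc : coks E vs cy = true)
    {d : D3} (hd : d3ok E cy d = true) (g : ℕ → ℕ → ℕ) :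
    ¬ GC (Ad (E ++ [(d.u, d.v)])) g := by
  intro hg
  unfold d3ok at hd
  rw [Bool.and_eq_true] at hd
  exact chk_sound (f := fE (E ++ [(d.u, d.v)]) g) hd.2 (coks_ok (fun p hp => hp) hg hd.1)
    (coks_ok (fun p hp => hp) hg (coks_append hc)) (by simp) (fun p hp => absurd hp (by simp))

/-- all pairs -/
def d3all (s : ℕ) (E : List (ℕ × ℕ)) (L : List (ℕ × ℕ)) : Bool :=
  (List.range (s + 1)).all (fun v => (List.range v).all (fun u => adb E u v || adb L u v))

theorem d3all_ok {s : ℕ} {E : List (ℕ × ℕ)} {L : List (ℕ × ℕ)}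
    (hL : ∀ p ∈ L, ∀ g, ¬ GC (Ad (E ++ [p])) g)
    (hA : d3all s E L = true) : ∀ u v, u < v → v ≤ s → ¬ Ad E u v →
      ∀ g, ¬ GC (Ad (E ++ [(u, v)])) g := by
  intro u v huv hv hE g hg
  unfold d3all at hA
  have h2 := List.all_eq_true.1 (List.all_eq_true.1 hA v (List.mem_range.2 (by omega))) u
    (List.mem_range.2 huv)
  rw [Bool.or_eq_true, adb_iff, adb_iff] at h2
  rcases h2 with h2 | h2 | h2
  · exact hE h2
  · exact hL _ h2 g hg
  · have h3 : Ad (E ++ [(u, v)]) = Ad (E ++ [(v, u)]) := by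
      funext x y
      unfold Ad
      simp only [List.mem_append, List.mem_singleton, Prod.mk.injEq, eq_iff_iff]
      tauto
    rw [h3] at hg
    exact hL _ h2 g hg

/-! ## a good colouring -/

/-- the colour of a pair -/
def gl : List (ℕ × ℕ) → List ℕ → ℕ → ℕ → ℕ
  | p :: E, c :: cl, x, y => bif mt p x y then c else gl E cl x y
  | _, _, _, _ => 0

theorem mt_symm (p : ℕ × ℕ) (x y : ℕ) : mt p x y = mt p y x := by
  unfold mt
  rw [Bool.or_comm]

theorem gl_symm (E : List (ℕ × ℕ)) (cl : List ℕ) (x y : ℕ) : gl E cl x y = gl E cl y x := by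
  induction E generalizing cl with
  | nil => simp [gl]
  | cons p E ih =>
    cases cl with
    | nil => simp [gl]
    | cons c cl =>
      unfold gl
      rw [mt_symm p x y, ih cl]

/-- coloured neighbours -/
def nbs (NB : List (List (ℕ × ℕ))) (x : ℕ) : List (ℕ × ℕ) := NB.getD x []

/-- test for the lists of coloured neighbours -/
def nbok (E : List (ℕ × ℕ)) (cl : List ℕ) (NB : List (List (ℕ × ℕ))) : Bool :=
  E.all (fun p => (nbs NB p.1).any (fun q => Nat.beq q.1 p.2 && Nat.beq q.2 (gl E cl p.1 p.2)) &&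
    (nbs NB p.2).any (fun q => Nat.beq q.1 p.1 && Nat.beq q.2 (gl E cl p.1 p.2)))

theorem nbok_ok {E : List (ℕ × ℕ)} {cl : List ℕ} {NB : List (List (ℕ × ℕ))}
    (h : nbok E cl NB = true) {x y : ℕ} (hxy : Ad E x y) : (y, gl E cl x y) ∈ nbs NB x := by
  unfold nbok at h
  rcases hxy with h1 | h1
  · have h2 := List.all_eq_true.1 h _ h1
    rw [Bool.and_eq_true, List.any_eq_true, List.any_eq_true] at h2
    obtain ⟨⟨q, hq, h3⟩, -⟩ := h2
    rw [Bool.and_eq_true, Nat.beq_eq, Nat.beq_eq] at h3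
    have : q = (y, gl E cl x y) := Prod.ext h3.1 h3.2
    rw [← this]
    exact hq
  · have h2 := List.all_eq_true.1 h _ h1
    rw [Bool.and_eq_true, List.any_eq_true, List.any_eq_true] at h2
    obtain ⟨-, ⟨q, hq, h3⟩⟩ := h2
    rw [Bool.and_eq_true, Nat.beq_eq, Nat.beq_eq] at h3
    have : q = (y, gl E cl x y) := Prod.ext h3.1 (h3.2.trans (gl_symm E cl _ _))
    rw [← this]
    exact hq

/-- the colouring is proper -/
def prok (s : ℕ) (NB : List (List (ℕ × ℕ))) : Bool :=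
  (List.range (s + 1)).all (fun x => (nbs NB x).all (fun p => (nbs NB x).all (fun q =>
    Nat.beq p.1 q.1 || !Nat.beq p.2 q.2)))

/-- there are no rainbow 5-cycles -/
def cyok (s : ℕ) (NB : List (List (ℕ × ℕ))) : Bool :=
  (List.range (s + 1)).all (fun a => (nbs NB a).all (fun b => (nbs NB b.1).all (fun c =>
    Nat.beq c.1 a || (nbs NB c.1).all (fun d => (Nat.beq d.1 a || Nat.beq d.1 b.1) ||
    (nbs NB d.1).all (fun e => (Nat.beq e.1 a || (Nat.beq e.1 b.1 || Nat.beq e.1 c.1)) ||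
    (nbs NB e.1).all (fun f => !Nat.beq f.1 a || (Nat.beq b.2 d.2 || (Nat.beq c.2 e.2 ||
    (Nat.beq d.2 f.2 || (Nat.beq e.2 b.2 || Nat.beq f.2 c.2))))))))))

/-- the test of a colouring -/
def gok (s : ℕ) (E : List (ℕ × ℕ)) (cl : List ℕ) (NB : List (List (ℕ × ℕ))) : Bool :=
  nbok E cl NB && (prok s NB && cyok s NB)

/-- the vertices are in the right range -/
def bdok (s : ℕ) (E : List (ℕ × ℕ)) : Bool :=
  E.all (fun p => Nat.blt p.1 p.2 && Nat.ble p.2 s)

theorem bdok_ok {s : ℕ} {E : List (ℕ × ℕ)} (h : bdok s E = true) :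
    ∀ p ∈ E, p.1 < p.2 ∧ p.2 ≤ s := by
  intro p hp
  have h1 := List.all_eq_true.1 h p hp
  rw [Bool.and_eq_true] at h1
  exact ⟨by simpa using h1.1, by simpa using h1.2⟩

theorem gok_ok {s : ℕ} {E : List (ℕ × ℕ)} {cl : List ℕ} {NB : List (List (ℕ × ℕ))}
    (hb : bdok s E = true) (h : gok s E cl NB = true) : GC (Ad E) (gl E cl) := by
  unfold gok at h
  rw [Bool.and_eq_true, Bool.and_eq_true] at h
  obtain ⟨hn, hp, hc⟩ := h
  have hbd := bdok_ok hb
  have hle : ∀ {x y : ℕ}, Ad E x y → x ≤ s := by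
    intro x y hxy
    rcases hxy with h1 | h1
    · have := hbd _ h1; exact (this.1.le).trans this.2
    · exact (hbd _ h1).2
  refine ⟨gl_symm E cl, ?_, ?_⟩
  · intro x y z hy hz hyz heq
    have h1 := List.all_eq_true.1 hp x (List.mem_range.2 (by have := hle hy; omega))
    have h2 := List.all_eq_true.1 (List.all_eq_true.1 h1 _ (nbok_ok hn hy)) _ (nbok_ok hn hz)
    rw [Bool.or_eq_true, Nat.beq_eq, not_beq] at h2
    rcases h2 with h2 | h2
    · exact hyz h2
    · exact h2 heq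
  · intro a b c d e hab hbc hcd hde hea hnd
    simp only [List.nodup_cons, List.mem_cons, List.not_mem_nil, or_false, not_or,
      List.nodup_nil, and_true] at hnd
    obtain ⟨⟨ab, ac, ad', ae⟩, ⟨bc, bd, be⟩, ⟨cd, ce⟩, de, -⟩ := hnd
    have h1 := List.all_eq_true.1 hc a (List.mem_range.2 (by have := hle hab; omega))
    have h2 := List.all_eq_true.1 (List.all_eq_true.1 h1 _ (nbok_ok hn hab)) _ (nbok_ok hn hbc)
    rw [Bool.or_eq_true, Nat.beq_eq] at h2
    have h3 := h2.resolve_left (Ne.symm ac)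
    have h4 := List.all_eq_true.1 h3 _ (nbok_ok hn hcd)
    rw [Bool.or_eq_true, Bool.or_eq_true, Nat.beq_eq, Nat.beq_eq] at h4
    have h5 := h4.resolve_left (fun h => h.elim (Ne.symm ad') (Ne.symm bd))
    have h6 := List.all_eq_true.1 h5 _ (nbok_ok hn hde)
    rw [Bool.or_eq_true, Bool.or_eq_true, Bool.or_eq_true, Nat.beq_eq, Nat.beq_eq, Nat.beq_eq] at h6
    have h7 := h6.resolve_left (fun h => h.elim (Ne.symm ae) (fun h => h.elim (Ne.symm be)
      (Ne.symm ce)))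
    have h8 := List.all_eq_true.1 h7 _ (nbok_ok hn hea)
    rw [Bool.or_eq_true, not_beq] at h8
    have h9 := h8.resolve_left (fun h => h rfl)
    simp only [Bool.or_eq_true, Nat.beq_eq] at h9
    exact h9

/-! ## neighbours of the hub -/

/-- test: every neighbour `u` of the hub has a neighbour adjacent to the hub, every other vertex has two -/
def hbok (s : ℕ) (E : List (ℕ × ℕ)) : Bool :=
  (List.range s).all (fun i => bif adb E 0 (i + 1) then
    (List.range s).any (fun j => adb E (i + 1) (j + 1) && adb E 0 (j + 1)) else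
    (List.range s).any (fun j => (adb E (i + 1) (j + 1) && adb E 0 (j + 1)) &&
      (List.range j).any (fun l => adb E (i + 1) (l + 1) && adb E 0 (l + 1))))

theorem hbok_tt {s : ℕ} {E : List (ℕ × ℕ)} (hb : bdok s E = true) (h : hbok s E = true) :
    ∀ u, Ad E 0 u → ∃ a, a ≠ 0 ∧ Ad E u a ∧ Ad E 0 a := by
  intro u hu
  have h0 : u ≠ 0 ∧ u ≤ s := by
    rcases hu with h1 | h1
    · have := bdok_ok hb _ h1
      exact ⟨by have := this.1; omega, this.2⟩
    · have := bdok_ok hb _ h1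
      exact absurd this.1 (by simp)
  have h1 := List.all_eq_true.1 h (u - 1) (List.mem_range.2 (by omega))
  have h2 : u - 1 + 1 = u := by omega
  rw [h2, adb_iff.2 hu, cond_true, List.any_eq_true] at h1
  obtain ⟨j, -, hj⟩ := h1
  rw [Bool.and_eq_true, adb_iff, adb_iff] at hj
  exact ⟨j + 1, by omega, hj⟩

theorem hbok_st {s : ℕ} {E : List (ℕ × ℕ)} (h : hbok s E = true) :
    ∀ u, u ≠ 0 → u ≤ s → ¬ Ad E 0 u → ∃ a b, a ≠ b ∧ a ≠ 0 ∧ b ≠ 0 ∧ Ad E u a ∧ Ad E u b ∧
    Ad E 0 a ∧ Ad E 0 b := by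
  intro u hu hs hn
  have h1 := List.all_eq_true.1 h (u - 1) (List.mem_range.2 (by omega))
  have h2 : u - 1 + 1 = u := by omega
  have h3 : adb E 0 u = false := by
    rw [← Bool.not_eq_true, adb_iff]
    exact hn
  rw [h2, h3, cond_false, List.any_eq_true] at h1
  obtain ⟨j, -, hj⟩ := h1
  rw [Bool.and_eq_true, List.any_eq_true] at hj
  obtain ⟨hj, l, hl, hl'⟩ := hj
  rw [Bool.and_eq_true, adb_iff, adb_iff] at hj hl'
  rw [List.mem_range] at hl
  exact ⟨j + 1, l + 1, by omega, by omega, by omega, hj.1, hl'.1, hj.2, hl'.2⟩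

/-- **A block from its data.** -/
theorem blk_of {s : ℕ} {E : List (ℕ × ℕ)} {vs : List V5} {cy : List Cy} {L1 : List D1}
    {L2 : List D2} {L3 : List (ℕ × ℕ)} {cl : List ℕ} {NB : List (List (ℕ × ℕ))}
    (hb : bdok s E = true) (hh : hbok s E = true) (hg : gok s E cl NB = true)
    (hc : coks E vs cy = true) (h1 : L1.all (d1ok E cy) = true) (h1' : d1all E L1 = true)
    (h2 : L2.all (d2ok E cy) = true) (h2' : d2all s L2 = true)
    (h3 : ∀ p ∈ L3, ∀ g, ¬ GC (Ad (E ++ [p])) g) (h3' : d3all s E L3 = true) : Blk s E where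
  bd := bdok_ok hb
  good := ⟨_, gok_ok hb hg⟩
  ins := d3all_ok h3 h3'
  p1 := fun _ hg => d1all_ok hc h1 h1' hg
  p2 := fun _ hg => d2all_ok hc h2 h2' hg
  tt := hbok_tt hb hh
  st := hbok_st hh

/-- pairs from their data -/
theorem prs_of {E : List (ℕ × ℕ)} {vs : List V5} {cy : List Cy} (hc : coks E vs cy = true)
    {L : List D3} (hL : L.all (d3ok E cy) = true) :
    ∀ p ∈ L.map (fun d => (d.u, d.v)), ∀ g, ¬ GC (Ad (E ++ [p])) g := by
  intro p hp
  obtain ⟨d, hd, rfl⟩ := List.mem_map.1 hp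
  exact d3ok_ok hc (List.all_eq_true.1 hL d hd)

theorem prs_append {E : List (ℕ × ℕ)} {L L' : List (ℕ × ℕ)}
    (h : ∀ p ∈ L, ∀ g, ¬ GC (Ad (E ++ [p])) g) (h' : ∀ p ∈ L', ∀ g, ¬ GC (Ad (E ++ [p])) g) :
    ∀ p ∈ L ++ L', ∀ g, ¬ GC (Ad (E ++ [p])) g := by
  intro p hp
  rcases List.mem_append.1 hp with h1 | h1
  · exact h p h1
  · exact h' p h1

end Pool.Agent.RS5
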