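import Pool.Agent.RS5.GA1
import Pool.Agent.RS5.GA2
import Pool.Agent.RS5.GA3
import Pool.Agent.RS5.GA4

/-!
# RS5: the block GA
-/

set_option autoImplicit false

namespace Pool.Agent.RS5.GA

theorem blk : Blk 14 E :=
  blk_of (L3 := p1.map (fun d => (d.u, d.v)) ++ (p2.map (fun d => (d.u, d.v)) ++ (p3.map (fun d => (d.u, d.v)) ++ (p4.map (fun d => (d.u, d.v)))))) hb hh hg hc h1 h1a h2 h2a
    (prs_append (prs_of hc q1) (prs_append (prs_of hc q2) (prs_append (prs_of hc q3) (prs_of hc q4)))) (by decide +kernel)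

theorem len : E.length = 28 := rfl

end Pool.Agent.RS5.GA
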