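import Pool.Agent.RS5.GB1
import Pool.Agent.RS5.GB2
import Pool.Agent.RS5.GB3
import Pool.Agent.RS5.GB4
import Pool.Agent.RS5.GB5
import Pool.Agent.RS5.GB6

/-!
# RS5: the block GB
-/

set_option autoImplicit false

namespace Pool.Agent.RS5.GB

theorem blk : Blk 15 E :=
  blk_of (L3 := p1.map (fun d => (d.u, d.v)) ++ (p2.map (fun d => (d.u, d.v)) ++ (p3.map (fun d => (d.u, d.v)) ++ (p4.map (fun d => (d.u, d.v)) ++ (p5.map (fun d => (d.u, d.v)) ++ (p6.map (fun d => (d.u, d.v)))))))) hb hh hg hc h1 h1a h2 h2a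
    (prs_append (prs_of hc q1) (prs_append (prs_of hc q2) (prs_append (prs_of hc q3) (prs_append (prs_of hc q4) (prs_append (prs_of hc q5) (prs_of hc q6)))))) (by decide +kernel)

theorem len : E.length = 30 := rfl

end Pool.Agent.RS5.GB
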