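import Pool.Agent.RS5.Sat
import Pool.Agent.RS5.GA
import Pool.Agent.RS5.GB

/-!
# RS5: the upper bound for the rainbow saturation number of `C_5`
-/

set_option autoImplicit false

namespace Pool.Agent.RS5

open Pool.Agent.Helper57.Rs

theorem upper5 {n : ℕ} (hn : 183 ≤ n) : satStar 5 n ≤ 2 * n - 2 := by
  obtain ⟨a, b, hab⟩ : ∃ a b, a * 14 + b * 15 + 1 = n :=
    ⟨(n - 1) / 14 - (n - 1) % 14, (n - 1) % 14, by omega⟩
  have h := two_blocks GA.blk GB.blk GA.len GB.len a b
  rw [hab] at h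
  omega

end Pool.Agent.RS5
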