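import Pool.Agent.RS5.Wind

/-!
# RS5: the windmill is rainbow `C_5`-saturated
-/

set_option autoImplicit false

namespace Pool.Agent.RS5

open Pool.Agent.Helper57.Rs Pool.Agent.RSU

section

variable {m : ℕ} {s : Fin m → ℕ} {E : Fin m → List (ℕ × ℕ)}

/-- colours of pairs of vertices of the windmill -/
def colW (s : Fin m → ℕ) (γ : Fin m → ℕ → ℕ → ℕ) : Wv s → Wv s → ℕ
  | none, none => 0
  | none, some q => Nat.pair q.1.val (γ q.1 0 (q.2.val + 1))
  | some p, none => Nat.pair p.1.val (γ p.1 (p.2.val + 1) 0)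
  | some p, some q => if p.1 = q.1 then Nat.pair p.1.val (γ p.1 (p.2.val + 1) (q.2.val + 1)) else 0

theorem colW_symm {γ : Fin m → ℕ → ℕ → ℕ} (hγ : ∀ i, GC (Ad (E i)) (γ i)) (u v : Wv s) :
    colW s γ u v = colW s γ v u := by
  match u, v with
  | none, none => rfl
  | none, some q =>
    show Nat.pair q.1.val (γ q.1 0 (q.2.val + 1)) = Nat.pair q.1.val (γ q.1 (q.2.val + 1) 0)
    rw [(hγ q.1).symm]
  | some p, none =>
    show Nat.pair p.1.val (γ p.1 (p.2.val + 1) 0) = Nat.pair p.1.val (γ p.1 0 (p.2.val + 1))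
    rw [(hγ p.1).symm]
  | some ⟨i, x⟩, some ⟨j, y⟩ =>
    show (if i = j then Nat.pair i.val (γ i (x.val + 1) (y.val + 1)) else 0) =
      (if j = i then Nat.pair j.val (γ j (y.val + 1) (x.val + 1)) else 0)
    by_cases h : i = j
    · subst h
      rw [if_pos rfl, if_pos rfl, (hγ i).symm]
    · rw [if_neg h, if_neg (Ne.symm h)]

theorem colW_em {γ : Fin m → ℕ → ℕ → ℕ} {i : Fin m} {x y : ℕ} (hx : x ≤ s i) (hy : y ≤ s i)
    (hxy : x ≠ y) : colW s γ (em s i x) (em s i y) = Nat.pair i.val (γ i x y) := by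
  by_cases h0 : x = 0
  · have h1 : y ≠ 0 := fun h => hxy (h0.trans h.symm)
    obtain ⟨h', h2⟩ := em_pos h1 hy
    rw [h0, em_zero, h2]
    show Nat.pair i.val (γ i 0 (y - 1 + 1)) = _
    rw [Nat.sub_add_cancel (by omega)]
  · obtain ⟨h', h3⟩ := em_pos h0 hx
    by_cases h1 : y = 0
    · rw [h3, h1, em_zero]
      show Nat.pair i.val (γ i (x - 1 + 1) 0) = _
      rw [Nat.sub_add_cancel (by omega)]
    · obtain ⟨h'', h2⟩ := em_pos h1 hy
      rw [h3, h2]
      show (if i = i then Nat.pair i.val (γ i (x - 1 + 1) (y - 1 + 1)) else 0) = _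
      rw [if_pos rfl, Nat.sub_add_cancel (by omega), Nat.sub_add_cancel (by omega)]

theorem adj_em {hB : ∀ i, Blk (s i) (E i)} {u v : Wv s} (h : (wm s E hB).Adj u v) :
    ∃ i x y, u = em s i x ∧ v = em s i y ∧ Ad (E i) x y := by
  match u, v, h with
  | none, none, h => exact False.elim h
  | none, some q, h =>
    exact ⟨q.1, 0, q.2.val + 1, rfl, (em_succ s q.1 q.2.isLt).symm, h⟩
  | some p, none, h =>
    exact ⟨p.1, p.2.val + 1, 0, (em_succ s p.1 p.2.isLt).symm, rfl, h⟩
  | some ⟨i, x⟩, some ⟨j, y⟩, h =>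
    obtain ⟨h1, h2⟩ := h
    replace h1 : i = j := h1
    subst h1
    exact ⟨i, x.val + 1, y.val + 1, (em_succ s i x.isLt).symm, (em_succ s i y.isLt).symm, h2⟩

theorem em_ne_of {i j : Fin m} {x y : ℕ} (hx : x ≤ s i) (hy : y ≤ s j)
    (h : em s i x = em s j y) (hn : em s i x ≠ none) : i = j := by
  by_contra hij
  have hx0 : x ≠ 0 := by
    intro h0
    rw [h0] at hn
    exact hn rfl
  exact em_cross hij hx0 hx hy h

theorem wm_free (hB : ∀ i, Blk (s i) (E i)) : RainbowFree 5 (wm s E hB) := by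
  choose γ hγ using (fun i => (hB i).good)
  refine ⟨Sym2.lift ⟨colW s γ, colW_symm hγ⟩, ?_, ?_⟩
  · intro u v w huv huw hvw
    show colW s γ u v ≠ colW s γ u w
    obtain ⟨i, x, y, e1, e2, a1⟩ := adj_em huv
    obtain ⟨j, x', z, e3, e4, a2⟩ := adj_em huw
    have bi := (hB i).bd
    have bj := (hB j).bd
    have c1 : colW s γ u v = Nat.pair i.val (γ i x y) := by
      rw [e1, e2]
      exact colW_em (ad_le bi a1) (ad_le bi a1.symm) (fun h => ad_irrefl bi (h ▸ a1))
    have c2 : colW s γ u w = Nat.pair j.val (γ j x' z) := by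
      rw [e3, e4]
      exact colW_em (ad_le bj a2) (ad_le bj a2.symm) (fun h => ad_irrefl bj (h ▸ a2))
    rw [c1, c2]
    intro h
    rw [Nat.pair_eq_pair] at h
    have hij : i = j := Fin.ext h.1
    subst hij
    have hx : x = x' := em_inj (ad_le bi a1) (ad_le bi a2) (e1.symm.trans e3)
    subst hx
    refine (hγ i).prop x y z a1 a2 (fun h' => hvw ?_) h.2
    rw [e2, e4, h']
  · intro p hp
    have key : ∀ p : ZMod 5 → Wv s, RainbowCycle 5 (wm s E hB) (Sym2.lift ⟨colW s γ, colW_symm hγ⟩) p →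
        (∀ k, k ≠ 0 → p k ≠ none) → False := by
      rintro p ⟨hinj, hadj, hcol⟩ hnone
      choose ix x y e1 e2 a1 using (fun k => adj_em (hadj k))
      have b1 : ∀ k, x k ≤ s (ix k) := fun k => ad_le (hB _).bd (a1 k)
      have b2 : ∀ k, y k ≤ s (ix k) := fun k => ad_le (hB _).bd (a1 k).symm
      have st : ∀ k, k + 1 ≠ 0 → ix k = ix (k + 1) := by
        intro k hk
        have h1 := hnone (k + 1) hk
        rw [e2 k] at h1
        exact em_ne_of (b2 k) (b1 (k + 1)) ((e2 k).symm.trans (e1 (k + 1))) h1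
      have i0 : ix 0 = ix 1 := st 0 (by decide)
      have i1 : ix 1 = ix 2 := st 1 (by decide)
      have i2 : ix 2 = ix 3 := st 2 (by decide)
      have i3 : ix 3 = ix 4 := st 3 (by decide)
      have all : ∀ k, ix k = ix 0 := by
        intro k
        have hk : k = 0 ∨ k = 1 ∨ k = 2 ∨ k = 3 ∨ k = 4 := by
          revert k
          decide
        rcases hk with rfl | rfl | rfl | rfl | rfl
        · rfl
        · exact i0.symm
        · exact (i0.trans i1).symm
        · exact (i0.trans (i1.trans i2)).symm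
        · exact (i0.trans (i1.trans (i2.trans i3))).symm
      generalize hI : ix 0 = I at all
      have yx : ∀ k, y k = x (k + 1) := by
        intro k
        have h1 : em s I (y k) = em s I (x (k + 1)) := by
          have h2 := e2 k
          have h3 := e1 (k + 1)
          rw [all k] at h2
          rw [all (k + 1)] at h3
          exact h2.symm.trans h3
        exact em_inj (by rw [← all k]; exact b2 k) (by rw [← all (k + 1)]; exact b1 (k + 1)) h1
      have ak : ∀ k, Ad (E I) (x k) (x (k + 1)) := by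
        intro k
        have h1 := a1 k
        rw [all k, yx k] at h1
        exact h1
      have pk : ∀ k, p k = em s I (x k) := by
        intro k
        have h1 := e1 k
        rw [all k] at h1
        exact h1
      have bk : ∀ k, x k ≤ s I := by
        intro k
        have h1 := b1 k
        rw [all k] at h1
        exact h1
      have xinj : Function.Injective x := by
        intro k l hkl
        apply hinj
        rw [pk, pk, hkl]
      have ck : ∀ k, (Sym2.lift ⟨colW s γ, colW_symm hγ⟩ : Sym2 (Wv s) → ℕ) s(p k, p (k + 1)) =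
          Nat.pair I.val (γ I (x k) (x (k + 1))) := by
        intro k
        show colW s γ (p k) (p (k + 1)) = _
        rw [pk k, pk (k + 1)]
        refine colW_em (bk k) (bk (k + 1)) (fun h => ?_)
        have := ak k
        rw [← h] at this
        exact ad_irrefl (hB I).bd this
      have cne : ∀ k l, k ≠ l → γ I (x k) (x (k + 1)) ≠ γ I (x l) (x (l + 1)) := by
        intro k l hkl h
        apply hkl
        apply hcol
        show (Sym2.lift ⟨colW s γ, colW_symm hγ⟩ : Sym2 (Wv s) → ℕ) s(p k, p (k + 1)) =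
          (Sym2.lift ⟨colW s γ, colW_symm hγ⟩ : Sym2 (Wv s) → ℕ) s(p l, p (l + 1))
        rw [ck, ck, h]
      have hx : ∀ k l, k ≠ l → x k ≠ x l := fun k l hkl h => hkl (xinj h)
      have nd : [x 0, x 1, x 2, x 3, x 4].Nodup := by
        simp only [List.nodup_cons, List.mem_cons, List.not_mem_nil, or_false, not_or,
          List.nodup_nil, and_true, not_false_eq_true]
        exact ⟨⟨hx 0 1 (by decide), hx 0 2 (by decide), hx 0 3 (by decide), hx 0 4 (by decide)⟩,
          ⟨hx 1 2 (by decide), hx 1 3 (by decide), hx 1 4 (by decide)⟩,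
          ⟨hx 2 3 (by decide), hx 2 4 (by decide)⟩, hx 3 4 (by decide)⟩
      rcases (hγ I).cyc (x 0) (x 1) (x 2) (x 3) (x 4) (ak 0) (ak 1) (ak 2) (ak 3) (ak 4) nd with
        h | h | h | h | h
      · exact cne 0 2 (by decide) h
      · exact cne 1 3 (by decide) h
      · exact cne 2 4 (by decide) h
      · exact cne 3 0 (by decide) h
      · exact cne 4 1 (by decide) h
    by_cases hz : ∃ k0, p k0 = none
    · obtain ⟨k0, hk0⟩ := hz
      refine key (fun k => p (k0 + k)) ⟨?_, ?_, ?_⟩ ?_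
      · intro k l hkl
        have := hp.1 hkl
        exact add_left_cancel this
      · intro k
        have := hp.2.1 (k0 + k)
        rw [add_assoc] at this
        exact this
      · intro k l hkl
        have h1 : ∀ k : ZMod 5, k0 + (k + 1) = k0 + k + 1 := fun k => (add_assoc _ _ _).symm
        have h2 : (fun i => (Sym2.lift ⟨colW s γ, colW_symm hγ⟩ : Sym2 (Wv s) → ℕ)
          s(p i, p (i + 1))) (k0 + k) = (fun i => (Sym2.lift ⟨colW s γ, colW_symm hγ⟩ :
            Sym2 (Wv s) → ℕ) s(p i, p (i + 1))) (k0 + l) := by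
          show (Sym2.lift ⟨colW s γ, colW_symm hγ⟩ : Sym2 (Wv s) → ℕ) s(p (k0 + k), p (k0 + k + 1)) =
            (Sym2.lift ⟨colW s γ, colW_symm hγ⟩ : Sym2 (Wv s) → ℕ) s(p (k0 + l), p (k0 + l + 1))
          rw [← h1, ← h1]
          exact hkl
        exact add_left_cancel (hp.2.2 h2)
      · intro k hk h
        apply hk
        have := hp.1 (h.trans hk0.symm)
        simpa using this
    · push Not at hz
      exact key p hp (fun k _ => hz k)

/-- an additional edge inside a block -/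
theorem wm_in (hB : ∀ i, Blk (s i) (E i)) {i : Fin m} {x y : ℕ} (hxy : x < y) (hy : y ≤ s i)
    (hn : ¬ Ad (E i) x y) {G : SimpleGraph (Wv s)} (hle : wm s E hB ≤ G)
    (hG : G.Adj (em s i x) (em s i y)) : ¬ RainbowFree 5 G := by
  rintro ⟨c, hp, hc⟩
  refine (hB i).ins x y hxy hy hn (fun a b => c s(em s i a, em s i b))
    (gc_of hp hc (F := E i ++ [(x, y)]) ?_)
  intro a b hab
  have h1 : Ad (E i) a b ∨ (a = x ∧ b = y) ∨ (a = y ∧ b = x) := by
    unfold Ad at hab ⊢
    simp only [List.mem_append, List.mem_singleton, Prod.mk.injEq] at hab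
    tauto
  rcases h1 with h1 | ⟨rfl, rfl⟩ | ⟨rfl, rfl⟩
  · exact ⟨ad_le (hB i).bd h1, ad_le (hB i).bd h1.symm, hle (em_adj hB h1)⟩
  · exact ⟨by omega, hy, hG⟩
  · exact ⟨hy, by omega, hG.symm⟩

theorem wm_in' (hB : ∀ i, Blk (s i) (E i)) {i : Fin m} {x y : ℕ} (hx : x ≤ s i) (hy : y ≤ s i)
    (hne : em s i x ≠ em s i y) (hn : ¬ (wm s E hB).Adj (em s i x) (em s i y))
    {G : SimpleGraph (Wv s)} (hle : wm s E hB ≤ G)
    (hG : G.Adj (em s i x) (em s i y)) : ¬ RainbowFree 5 G := by
  have h1 : ¬ Ad (E i) x y := fun h => hn (em_adj hB h)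
  have h2 : x ≠ y := fun h => hne (by rw [h])
  rcases Nat.lt_or_gt_of_ne h2 with h3 | h3
  · exact wm_in hB h3 hy h1 hle hG
  · exact wm_in hB h3 hx (fun h => h1 h.symm) hle hG.symm

/-- **The windmill is saturated.** -/
theorem wm_sat (hB : ∀ i, Blk (s i) (E i)) : Saturated 5 (wm s E hB) := by
  refine ⟨wm_free hB, ?_⟩
  intro u v huv hn
  have hle : wm s E hB ≤ wm s E hB ⊔ SimpleGraph.edge u v := le_sup_left
  have hadj : (wm s E hB ⊔ SimpleGraph.edge u v).Adj u v := by
    rw [SimpleGraph.sup_adj, SimpleGraph.edge_adj]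
    exact Or.inr ⟨Or.inl ⟨rfl, rfl⟩, huv⟩
  generalize wm s E hB ⊔ SimpleGraph.edge u v = G at hle hadj
  have hsome : ∀ q : (Σ i : Fin m, Fin (s i)), (some q : Wv s) = em s q.1 (q.2.val + 1) :=
    fun q => (em_succ s q.1 q.2.isLt).symm
  match u, v, huv, hn, hadj with
  | none, none, huv, _, _ => exact absurd rfl huv
  | none, some q, huv, hn, hadj =>
    have h0 : (none : Wv s) = em s q.1 0 := rfl
    rw [hsome q, h0] at huv hn hadj
    exact wm_in' hB (Nat.zero_le _) q.2.isLt huv hn hle hadj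
  | some q, none, huv, hn, hadj =>
    have h0 : (none : Wv s) = em s q.1 0 := rfl
    rw [hsome q, h0] at huv hn hadj
    exact wm_in' hB q.2.isLt (Nat.zero_le _) huv hn hle hadj
  | some ⟨i, x⟩, some ⟨j, y⟩, huv, hn, hadj =>
    by_cases hpq : i = j
    · subst hpq
      rw [hsome ⟨i, x⟩, hsome ⟨i, y⟩] at huv hn hadj
      exact wm_in' hB x.isLt y.isLt huv hn hle hadj
    · rintro ⟨c, hp, hc⟩
      rw [hsome ⟨i, x⟩, hsome ⟨j, y⟩] at hadj
      exact Cr.no (hB := hB) ⟨hle, hp, hc, hpq, Nat.succ_ne_zero _, Nat.succ_ne_zero _, x.isLt,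
        y.isLt, hadj⟩

theorem wm_edges (hB : ∀ i, Blk (s i) (E i)) :
    (wm s E hB).edgeSet.ncard ≤ ∑ i, (E i).length := by
  let F : (Σ i : Fin m, Fin (E i).length) → Sym2 (Wv s) :=
    fun q => s(em s q.1 ((E q.1)[q.2.val]).1, em s q.1 ((E q.1)[q.2.val]).2)
  have h1 : (wm s E hB).edgeSet ⊆ F '' Set.univ := by
    intro z
    refine Sym2.inductionOn z ?_
    intro u v h
    rw [SimpleGraph.mem_edgeSet] at h
    obtain ⟨i, x, y, rfl, rfl, h2⟩ := adj_em h
    rcases h2 with h2 | h2
    · obtain ⟨k, hk, h3⟩ := List.mem_iff_getElem.1 h2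
      refine ⟨⟨i, ⟨k, hk⟩⟩, trivial, ?_⟩
      show s(em s i ((E i)[k]).1, em s i ((E i)[k]).2) = _
      rw [h3]
    · obtain ⟨k, hk, h3⟩ := List.mem_iff_getElem.1 h2
      refine ⟨⟨i, ⟨k, hk⟩⟩, trivial, ?_⟩
      show s(em s i ((E i)[k]).1, em s i ((E i)[k]).2) = _
      rw [h3, Sym2.eq_swap]
  refine (Set.ncard_le_ncard h1 (Set.toFinite _)).trans ((Set.ncard_image_le).trans ?_)
  rw [Set.ncard_univ, Nat.card_eq_fintype_card, Fintype.card_sigma]
  simp only [Fintype.card_fin, le_refl]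

end

/-- **The bound from two blocks** of coprime sizes with two edges for each vertex. -/
theorem two_blocks {s1 s2 : ℕ} {E1 E2 : List (ℕ × ℕ)} (h1 : Blk s1 E1) (h2 : Blk s2 E2)
    (l1 : E1.length = 2 * s1) (l2 : E2.length = 2 * s2) (a b : ℕ) :
    satStar 5 (a * s1 + b * s2 + 1) ≤ 2 * (a * s1 + b * s2) := by
  let s : Fin (a + b) → ℕ := fun i => if i.val < a then s1 else s2
  let E : Fin (a + b) → List (ℕ × ℕ) := fun i => if i.val < a then E1 else E2
  have hB : ∀ i, Blk (s i) (E i) := by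
    intro i
    show Blk (if i.val < a then s1 else s2) (if i.val < a then E1 else E2)
    by_cases h : i.val < a
    · rw [if_pos h, if_pos h]; exact h1
    · rw [if_neg h, if_neg h]; exact h2
  have hl : ∀ i, (E i).length = 2 * s i := by
    intro i
    show (if i.val < a then E1 else E2).length = 2 * (if i.val < a then s1 else s2)
    by_cases h : i.val < a
    · rw [if_pos h, if_pos h]; exact l1
    · rw [if_neg h, if_neg h]; exact l2
  have hs : ∑ i, s i = a * s1 + b * s2 := by
    rw [Fin.sum_univ_add]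
    have e1 : ∀ i : Fin a, s (Fin.castAdd b i) = s1 := fun i => if_pos i.isLt
    have e2 : ∀ i : Fin b, s (Fin.natAdd a i) = s2 := fun i =>
      if_neg (by rw [Fin.val_natAdd]; omega)
    simp only [e1, e2, Finset.sum_const, Finset.card_univ, Fintype.card_fin, smul_eq_mul]
  have hcard : Fintype.card (Wv s) = a * s1 + b * s2 + 1 := by
    rw [Fintype.card_option, Fintype.card_sigma]
    simp only [Fintype.card_fin]
    rw [hs]
  obtain ⟨G', hG', hc⟩ := sat_iso (Fintype.equivFinOfCardEq hcard) (wm_sat hB)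
  have h3 : satStar 5 (a * s1 + b * s2 + 1) ≤ G'.edgeSet.ncard := Nat.sInf_le ⟨G', hG', rfl⟩
  refine h3.trans ?_
  rw [hc]
  refine (wm_edges hB).trans ?_
  rw [Finset.sum_congr rfl (fun i _ => hl i), ← Finset.mul_sum, hs]

end Pool.Agent.RS5
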