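import Pool.Agent.RS5.Blk
import Pool.Agent.RSU.Fin

/-!
# RS5: windmills of blocks

Blocks are glued at the hub. The graph is rainbow `C_5`-saturated and the number of its edges is the sum of the numbers
of edges of the blocks.
-/

set_option autoImplicit false

namespace Pool.Agent.RS5

open Pool.Agent.Helper57.Rs Pool.Agent.RSU

/-- a 5-cycle which is not rainbow -/
theorem five {V : Type} {G : SimpleGraph V} {c : Sym2 V → ℕ} (hp : Proper G c)
    (hn : ∀ p, ¬ RainbowCycle 5 G c p) {v1 v2 v3 v4 v5 : V} (h1 : G.Adj v1 v2) (h2 : G.Adj v2 v3)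
    (h3 : G.Adj v3 v4) (h4 : G.Adj v4 v5) (h5 : G.Adj v5 v1) (hnd : [v1, v2, v3, v4, v5].Nodup) :
    c s(v1, v2) = c s(v3, v4) ∨ c s(v2, v3) = c s(v4, v5) ∨ c s(v3, v4) = c s(v5, v1) ∨
      c s(v4, v5) = c s(v1, v2) ∨ c s(v5, v1) = c s(v2, v3) := by
  by_contra hcon
  push Not at hcon
  obtain ⟨n1, n2, n3, n4, n5⟩ := hcon
  have hnd' := hnd
  simp only [List.nodup_cons, List.mem_cons, List.not_mem_nil, or_false, not_or,
    List.nodup_nil, and_true] at hnd'
  obtain ⟨⟨_, e13, e14, _⟩, ⟨_, e24, e25⟩, ⟨_, e35⟩, _, -⟩ := hnd'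
  have p1 : c s(v1, v2) ≠ c s(v2, v3) := by
    rw [Sym2.eq_swap]
    exact hp v2 v1 v3 h1.symm h2 e13
  have p2 : c s(v2, v3) ≠ c s(v3, v4) := by
    rw [Sym2.eq_swap]
    exact hp v3 v2 v4 h2.symm h3 e24
  have p3 : c s(v3, v4) ≠ c s(v4, v5) := by
    rw [Sym2.eq_swap]
    exact hp v4 v3 v5 h3.symm h4 e35
  have p4 : c s(v4, v5) ≠ c s(v5, v1) := by
    rw [Sym2.eq_swap]
    exact hp v5 v4 v1 h4.symm h5 (Ne.symm e14)
  have p5 : c s(v5, v1) ≠ c s(v1, v2) := by
    rw [Sym2.eq_swap]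
    exact hp v1 v5 v2 h5.symm h1 (Ne.symm e25)
  have hcols : cols c (v1 :: ([v2, v3, v4] ++ [v5])) =
      [c s(v1, v2), c s(v2, v3), c s(v3, v4), c s(v4, v5)] := rfl
  have hrb : Rb G c (v1 :: ([v2, v3, v4] ++ [v5])) := by
    refine ⟨?_, hnd, ?_⟩
    · simp only [List.cons_append, List.nil_append, List.isChain_cons_cons,
        List.isChain_singleton, and_true]
      exact ⟨h1, h2, h3, h4⟩
    · rw [hcols]
      simp only [List.nodup_cons, List.mem_cons, List.not_mem_nil, or_false, not_or,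
        List.nodup_nil, and_true, not_false_eq_true]
      exact ⟨⟨p1, n1, Ne.symm n4⟩, ⟨p2, n2⟩, p3⟩
  obtain ⟨p, hpc⟩ := cycle_of_list (k := 5) (by omega) hrb rfl h5 (by
    rw [hcols]
    simp only [List.mem_cons, List.not_mem_nil, or_false, not_or]
    exact ⟨p5, n5, Ne.symm n3, Ne.symm p4⟩)
  exact hn p hpc

section

variable {m : ℕ} (s : Fin m → ℕ) (E : Fin m → List (ℕ × ℕ))

/-- the vertices of the windmill -/
abbrev Wv : Type := Option (Σ i : Fin m, Fin (s i))

/-- adjacency in the windmill -/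
def wadj : Wv s → Wv s → Prop
  | none, none => False
  | none, some q => Ad (E q.1) 0 (q.2.val + 1)
  | some p, none => Ad (E p.1) (p.2.val + 1) 0
  | some p, some q => p.1 = q.1 ∧ Ad (E p.1) (p.2.val + 1) (q.2.val + 1)

theorem wadj_symm (u v : Wv s) (h : wadj s E u v) : wadj s E v u := by
  match u, v, h with
  | none, none, h => exact h
  | none, some q, h => exact Ad.symm h
  | some p, none, h => exact Ad.symm h
  | some ⟨i, x⟩, some ⟨j, y⟩, h =>
    obtain ⟨h1, h2⟩ := h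
    replace h1 : i = j := h1
    subst h1
    exact ⟨rfl, Ad.symm h2⟩

theorem ad_irrefl {s : ℕ} {E : List (ℕ × ℕ)} (hb : ∀ p ∈ E, p.1 < p.2 ∧ p.2 ≤ s) {x : ℕ} :
    ¬ Ad E x x := by
  rintro (h | h)
  · exact absurd (hb _ h).1 (lt_irrefl _)
  · exact absurd (hb _ h).1 (lt_irrefl _)

theorem ad_le {s : ℕ} {E : List (ℕ × ℕ)} (hb : ∀ p ∈ E, p.1 < p.2 ∧ p.2 ≤ s) {x y : ℕ}
    (h : Ad E x y) : x ≤ s := by
  rcases h with h | h
  · have := hb _ h
    exact (this.1.le).trans this.2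
  · exact (hb _ h).2

/-- the windmill -/
def wm (hB : ∀ i, Blk (s i) (E i)) : SimpleGraph (Wv s) where
  Adj := wadj s E
  symm := ⟨wadj_symm s E⟩
  loopless := ⟨fun u h => by
    match u, h with
    | none, h => exact h
    | some p, h => exact ad_irrefl (hB p.1).bd h.2⟩

/-- the vertex of a block with a given number -/
def em (i : Fin m) : ℕ → Wv s
  | 0 => none
  | x + 1 => if h : x < s i then some ⟨i, ⟨x, h⟩⟩ else none

theorem em_zero (i : Fin m) : em s i 0 = none := rfl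

theorem em_succ (i : Fin m) {x : ℕ} (h : x < s i) : em s i (x + 1) = some ⟨i, ⟨x, h⟩⟩ := by
  show (if h : x < s i then some ⟨i, ⟨x, h⟩⟩ else none : Wv s) = _
  rw [dif_pos h]

variable {s E}

theorem em_pos {i : Fin m} {x : ℕ} (h0 : x ≠ 0) (h : x ≤ s i) :
    ∃ h' : x - 1 < s i, em s i x = some ⟨i, ⟨x - 1, h'⟩⟩ := by
  cases x with
  | zero => exact absurd rfl h0
  | succ x =>
    have h' : x < s i := by omega
    exact ⟨h', em_succ s i h'⟩

theorem em_inj {i : Fin m} {x y : ℕ} (hx : x ≤ s i) (hy : y ≤ s i) (h : em s i x = em s i y) :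
    x = y := by
  by_cases h0 : x = 0
  · by_cases h1 : y = 0
    · rw [h0, h1]
    · obtain ⟨_, h2⟩ := em_pos h1 hy
      rw [h0, em_zero, h2] at h
      exact absurd h (by simp)
  · obtain ⟨_, h3⟩ := em_pos h0 hx
    by_cases h1 : y = 0
    · rw [h1, em_zero, h3] at h
      exact absurd h (by simp)
    · obtain ⟨_, h2⟩ := em_pos h1 hy
      rw [h3, h2] at h
      simp only [Option.some.injEq, Sigma.mk.injEq, heq_eq_eq, true_and, Fin.mk.injEq] at h
      omega

theorem em_cross {i j : Fin m} (hij : i ≠ j) {x y : ℕ} (hx0 : x ≠ 0) (hx : x ≤ s i)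
    (hy : y ≤ s j) : em s i x ≠ em s j y := by
  obtain ⟨_, h3⟩ := em_pos hx0 hx
  intro h
  by_cases h1 : y = 0
  · rw [h1, em_zero, h3] at h
    exact absurd h (by simp)
  · obtain ⟨_, h2⟩ := em_pos h1 hy
    rw [h3, h2] at h
    simp only [Option.some.injEq, Sigma.mk.injEq] at h
    exact hij h.1

theorem em_adj (hB : ∀ i, Blk (s i) (E i)) {i : Fin m} {x y : ℕ} (h : Ad (E i) x y) :
    (wm s E hB).Adj (em s i x) (em s i y) := by
  have hx := ad_le (hB i).bd h
  have hy := ad_le (hB i).bd h.symm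
  by_cases h0 : x = 0
  · by_cases h1 : y = 0
    · rw [h0, h1] at h
      exact absurd h (ad_irrefl (hB i).bd)
    · obtain ⟨_, h2⟩ := em_pos h1 hy
      rw [h0, em_zero, h2]
      show Ad (E i) 0 (y - 1 + 1)
      rw [Nat.sub_add_cancel (by omega), ← h0]
      exact h
  · obtain ⟨_, h3⟩ := em_pos h0 hx
    by_cases h1 : y = 0
    · rw [h3, h1, em_zero]
      show Ad (E i) (x - 1 + 1) 0
      rw [Nat.sub_add_cancel (by omega), ← h1]
      exact h
    · obtain ⟨_, h2⟩ := em_pos h1 hy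
      rw [h3, h2]
      show i = i ∧ Ad (E i) (x - 1 + 1) (y - 1 + 1)
      rw [Nat.sub_add_cancel (by omega), Nat.sub_add_cancel (by omega)]
      exact ⟨rfl, h⟩

/-- colourings of graphs containing a block -/
theorem gc_of {G : SimpleGraph (Wv s)} {c : Sym2 (Wv s) → ℕ} (hp : Proper G c)
    (hn : ∀ p, ¬ RainbowCycle 5 G c p) {i : Fin m} {F : List (ℕ × ℕ)}
    (hF : ∀ x y, Ad F x y → x ≤ s i ∧ y ≤ s i ∧ G.Adj (em s i x) (em s i y)) :
    GC (Ad F) (fun x y => c s(em s i x, em s i y)) := by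
  refine ⟨fun x y => by rw [Sym2.eq_swap], ?_, ?_⟩
  · intro x y z hy hz hyz
    exact hp _ _ _ (hF x y hy).2.2 (hF x z hz).2.2
      (fun h => hyz (em_inj (hF x y hy).2.1 (hF x z hz).2.1 h))
  · intro a b d e f h1 h2 h3 h4 h5 hnd
    refine five hp hn (hF _ _ h1).2.2 (hF _ _ h2).2.2 (hF _ _ h3).2.2 (hF _ _ h4).2.2
      (hF _ _ h5).2.2 ?_
    have hla : ∀ x ∈ [a, b, d, e, f], x ≤ s i := by
      intro x hx
      simp only [List.mem_cons, List.not_mem_nil, or_false] at hx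
      rcases hx with rfl | rfl | rfl | rfl | rfl
      · exact (hF _ _ h1).1
      · exact (hF _ _ h2).1
      · exact (hF _ _ h3).1
      · exact (hF _ _ h4).1
      · exact (hF _ _ h5).1
    exact hnd.map_on (f := em s i) (fun x hx y hy h => em_inj (hla x hx) (hla y hy) h)

/-! ## pairs of different blocks -/

/-- the situation of an additional edge between different blocks -/
structure Cr (hB : ∀ i, Blk (s i) (E i)) (G : SimpleGraph (Wv s)) (c : Sym2 (Wv s) → ℕ)
    (i j : Fin m) (u v : ℕ) : Prop where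
  le : wm s E hB ≤ G
  pr : Proper G c
  nc : ∀ p, ¬ RainbowCycle 5 G c p
  ij : i ≠ j
  u0 : u ≠ 0
  v0 : v ≠ 0
  us : u ≤ s i
  vs : v ≤ s j
  uv : G.Adj (em s i u) (em s j v)

variable {hB : ∀ i, Blk (s i) (E i)} {G : SimpleGraph (Wv s)} {c : Sym2 (Wv s) → ℕ}
  {i j : Fin m} {u v : ℕ}

theorem Cr.sym (h : Cr hB G c i j u v) : Cr hB G c j i v u :=
  ⟨h.le, h.pr, h.nc, h.ij.symm, h.v0, h.u0, h.vs, h.us, h.uv.symm⟩

theorem Cr.ad (h : Cr hB G c i j u v) {l : Fin m} {x y : ℕ} (hxy : Ad (E l) x y) :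
    G.Adj (em s l x) (em s l y) := h.le (em_adj hB hxy)

theorem Cr.gc (h : Cr hB G c i j u v) (l : Fin m) :
    GC (Ad (E l)) (fun x y => c s(em s l x, em s l y)) :=
  gc_of h.pr h.nc (fun _ _ hxy => ⟨ad_le (hB l).bd hxy, ad_le (hB l).bd hxy.symm, h.ad hxy⟩)

/-- labels of different blocks are different -/
theorem Cr.lab (h : Cr hB G c i j u v) {t t' : ℕ} (ht : Ad (E i) 0 t) (ht' : Ad (E j) 0 t') :
    c s(em s i 0, em s i t) ≠ c s(em s j 0, em s j t') := by
  have h1 : t ≠ 0 := fun h0 => ad_irrefl (hB i).bd (h0 ▸ ht)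
  exact h.pr none (em s i t) (em s j t') (h.ad ht) (h.ad ht')
    (em_cross h.ij h1 (ad_le (hB i).bd ht.symm) (ad_le (hB j).bd ht'.symm))

/-- the colour of the additional edge is a label of the first block if the end in the second block is a
neighbour of the hub -/
theorem Cr.clA (h : Cr hB G c i j u v) (hv : Ad (E j) 0 v) :
    ∃ t, Ad (E i) 0 t ∧ c s(em s i u, em s j v) = c s(em s i 0, em s i t) := by
  obtain ⟨a, b, ha0, hb0, hbu, hua, hab, hb, hne⟩ := (hB i).p2 _ (h.gc i) u h.u0 h.us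
  have hbd := (hB i).bd
  have hbd' := (hB j).bd
  have hau : a ≠ u := fun h0 => ad_irrefl hbd (h0 ▸ hua)
  have hba : b ≠ a := fun h0 => ad_irrefl hbd (h0 ▸ hab)
  have la : a ≤ s i := ad_le hbd hab
  have lb : b ≤ s i := ad_le hbd hab.symm
  have key := five h.pr h.nc (v1 := em s j v) (v2 := em s i u) (v3 := em s i a) (v4 := em s i b)
    (v5 := em s i 0) h.uv.symm (h.ad hua) (h.ad hab) (h.ad hb.symm) (h.ad hv) (by
      simp only [List.nodup_cons, List.mem_cons, List.not_mem_nil, or_false, not_or,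
        List.nodup_nil, and_true, not_false_eq_true]
      refine ⟨⟨(em_cross h.ij h.u0 h.us h.vs).symm, (em_cross h.ij ha0 la h.vs).symm,
        (em_cross h.ij hb0 lb h.vs).symm, ?_⟩, ⟨?_, ?_, ?_⟩, ⟨?_, ?_⟩, ?_⟩
      · exact em_cross h.ij.symm h.v0 h.vs (Nat.zero_le _)
      · exact fun h0 => hau (em_inj la h.us h0.symm)
      · exact fun h0 => hbu (em_inj lb h.us h0.symm)
      · exact fun h0 => h.u0 (em_inj h.us (Nat.zero_le _) h0)
      · exact fun h0 => hba (em_inj lb la h0.symm)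
      · exact fun h0 => ha0 (em_inj la (Nat.zero_le _) h0)
      · exact fun h0 => hb0 (em_inj lb (Nat.zero_le _) h0))
  obtain ⟨t1, ht1, e1⟩ := (hB i).p1 _ (h.gc i) u a h.u0 ha0 hua
  obtain ⟨t2, ht2, e2⟩ := (hB i).p1 _ (h.gc i) a b ha0 hb0 hab
  replace e1 : c s(em s i u, em s i a) = c s(em s i 0, em s i t1) := e1
  replace e2 : c s(em s i a, em s i b) = c s(em s i 0, em s i t2) := e2
  replace hne : c s(em s i u, em s i a) ≠ c s(em s i 0, em s i b) := hne
  have s1 : c s(em s j v, em s i u) = c s(em s i u, em s j v) := by rw [Sym2.eq_swap]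
  have s2 : c s(em s i b, em s i 0) = c s(em s i 0, em s i b) := by rw [Sym2.eq_swap]
  have s3 : c s(em s i 0, em s j v) = c s(em s j 0, em s j v) := rfl
  rcases key with h1 | h1 | h1 | h1 | h1
  · exact ⟨t2, ht2, by rw [← s1, h1, e2]⟩
  · rw [s2] at h1
    exact absurd h1 hne
  · exact absurd (e2.symm.trans (h1.trans s3)) (h.lab ht2 hv)
  · exact ⟨b, hb, by rw [← s1, ← h1, s2]⟩
  · exact absurd (e1.symm.trans (h1.symm.trans s3)) (h.lab ht1 hv)

/-- the colour of the additional edge, if both ends have neighbours adjacent to the hub -/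
theorem Cr.clB (h : Cr hB G c i j u v) {a b : ℕ} (ha0 : a ≠ 0) (hua : Ad (E i) u a)
    (ha : Ad (E i) 0 a) (hb0 : b ≠ 0) (hvb : Ad (E j) v b) (hb : Ad (E j) 0 b) :
    c s(em s i u, em s j v) = c s(em s i 0, em s i a) ∨
      c s(em s i u, em s j v) = c s(em s j 0, em s j b) := by
  have hbd := (hB i).bd
  have hbd' := (hB j).bd
  have hau : a ≠ u := fun h0 => ad_irrefl hbd (h0 ▸ hua)
  have hbv : b ≠ v := fun h0 => ad_irrefl hbd' (h0 ▸ hvb)
  have la : a ≤ s i := ad_le hbd ha.symm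
  have lb : b ≤ s j := ad_le hbd' hb.symm
  have key := five h.pr h.nc (v1 := em s i u) (v2 := em s j v) (v3 := em s j b) (v4 := em s j 0)
    (v5 := em s i a) h.uv (h.ad hvb) (h.ad hb.symm) (h.ad ha) (h.ad hua.symm) (by
      simp only [List.nodup_cons, List.mem_cons, List.not_mem_nil, or_false, not_or,
        List.nodup_nil, and_true, not_false_eq_true]
      refine ⟨⟨em_cross h.ij h.u0 h.us h.vs, em_cross h.ij h.u0 h.us lb,
        em_cross h.ij h.u0 h.us (Nat.zero_le _), ?_⟩, ⟨?_, ?_, (em_cross h.ij ha0 la h.vs).symm⟩,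
        ⟨?_, (em_cross h.ij ha0 la lb).symm⟩, ?_⟩
      · exact fun h0 => hau (em_inj la h.us h0.symm)
      · exact fun h0 => hbv (em_inj lb h.vs h0.symm)
      · exact fun h0 => h.v0 (em_inj h.vs (Nat.zero_le _) h0)
      · exact fun h0 => hb0 (em_inj lb (Nat.zero_le _) h0)
      · exact (em_cross h.ij ha0 la (Nat.zero_le _)).symm)
  obtain ⟨t1, ht1, e1⟩ := (hB i).p1 _ (h.gc i) u a h.u0 ha0 hua
  obtain ⟨t2, ht2, e2⟩ := (hB j).p1 _ (h.gc j) v b h.v0 hb0 hvb
  replace e1 : c s(em s i u, em s i a) = c s(em s i 0, em s i t1) := e1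
  replace e2 : c s(em s j v, em s j b) = c s(em s j 0, em s j t2) := e2
  have s1 : c s(em s j b, em s j 0) = c s(em s j 0, em s j b) := by rw [Sym2.eq_swap]
  have s2 : c s(em s j 0, em s i a) = c s(em s i 0, em s i a) := rfl
  have s3 : c s(em s i a, em s i u) = c s(em s i u, em s i a) := by rw [Sym2.eq_swap]
  rcases key with h1 | h1 | h1 | h1 | h1
  · exact Or.inr (h1.trans s1)
  · exact absurd (s2.symm.trans (h1.symm.trans e2)) (h.lab ha ht2)
  · rw [s1, s3, e1] at h1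
    exact absurd h1.symm (h.lab ht1 hb)
  · exact Or.inl (h1.symm.trans s2)
  · rw [s3, e1, e2] at h1
    exact absurd h1 (h.lab ht1 ht2)

/-- different labels in a block -/
theorem Cr.lab' (h : Cr hB G c i j u v) {l : Fin m} {a b : ℕ} (hab : a ≠ b) (ha : Ad (E l) 0 a)
    (hb : Ad (E l) 0 b) : c s(em s l 0, em s l a) ≠ c s(em s l 0, em s l b) :=
  (h.gc l).prop 0 a b ha hb hab

/-- if the second end is a neighbour of the hub and the first one is not, there is a contradiction -/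
theorem Cr.ST (h : Cr hB G c i j u v) (hu : ¬ Ad (E i) 0 u) (hv : Ad (E j) 0 v) : False := by
  obtain ⟨t, ht, e1⟩ := h.clA hv
  obtain ⟨a, b, hab, ha0, hb0, hua, hub, ha, hb⟩ := (hB i).st u h.u0 h.us hu
  obtain ⟨d, hd0, hvd, hd⟩ := (hB j).tt v hv
  have k1 := h.clB ha0 hua ha hd0 hvd hd
  have k2 := h.clB hb0 hub hb hd0 hvd hd
  have n1 : c s(em s i u, em s j v) ≠ c s(em s j 0, em s j d) := by
    rw [e1]
    exact h.lab ht hd
  exact h.lab' hab ha hb ((k1.resolve_right n1).symm.trans (k2.resolve_right n1))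

theorem Cr.no (h : Cr hB G c i j u v) : False := by
  by_cases hu : Ad (E i) 0 u
  · by_cases hv : Ad (E j) 0 v
    · obtain ⟨t, ht, e1⟩ := h.clA hv
      obtain ⟨t', ht', e2⟩ := h.sym.clA hu
      have e3 : c s(em s j v, em s i u) = c s(em s i u, em s j v) := by rw [Sym2.eq_swap]
      exact h.lab ht ht' (e1.symm.trans (e3.symm.trans e2))
    · exact h.sym.ST hv hu
  · by_cases hv : Ad (E j) 0 v
    · exact h.ST hu hv
    · obtain ⟨a, b, hab, ha0, hb0, hua, hub, ha, hb⟩ := (hB i).st u h.u0 h.us hu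
      obtain ⟨a', b', hab', ha0', hb0', hva, hvb, ha', hb'⟩ := (hB j).st v h.v0 h.vs hv
      rcases h.clB ha0 hua ha ha0' hva ha' with k1 | k1
      · rcases h.clB hb0 hub hb ha0' hva ha' with k2 | k2
        · exact h.lab' hab ha hb (k1.symm.trans k2)
        · exact h.lab ha ha' (k1.symm.trans k2)
      · rcases h.clB ha0 hua ha hb0' hvb hb' with k2 | k2
        · exact h.lab ha ha' (k2.symm.trans k1)
        · exact h.lab' hab' ha' hb' (k1.symm.trans k2)

end

end Pool.Agent.RS5
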